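import Pool.Agent.H208.CM.Wind

set_option autoImplicit false

/-!
# Components of the lifted complement of an invariant continuum
-/

noncomputable section

namespace Pool.Agent.H208.CM

open Filter Topology Set OnePoint Pool.Agent.H208.Thu

/-- an invariant continuum containing the postcritical points, with connected complement -/
structure ICont (T : Set Sph) : Prop where
  conn : IsPreconnected T
  closed : IsClosed T
  inf : (∞ : Sph) ∈ T
  zero : ((0 : ℂ) : Sph) ∈ T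
  u : (uu : Sph) ∈ T
  cconn : IsPreconnected Tᶜ
  inv : ∀ x ∈ T, F x ∈ T
  ne : Tᶜ.Nonempty

/-- the lifted complement -/
def WW (T : Set Sph) : Set ℂ := pr ⁻¹' Tᶜ

theorem WW_add {T : Set Sph} {z v : ℂ} (hv : v ∈ Lat) : z + v ∈ WW T ↔ z ∈ WW T := by
  show pr (z + v) ∈ Tᶜ ↔ pr z ∈ Tᶜ
  rw [pr_add z hv]

theorem WW_neg {T : Set Sph} {z : ℂ} : -z ∈ WW T ↔ z ∈ WW T := by
  show pr (-z) ∈ Tᶜ ↔ pr z ∈ Tᶜ
  rw [pr_neg]

theorem WW_open {T : Set Sph} (h : ICont T) : IsOpen (WW T) :=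
  h.closed.isOpen_compl.preimage pr_continuous

theorem WW_div {T : Set Sph} (h : ICont T) {z : ℂ} (hz : z ∈ WW T) : lam⁻¹ * z ∈ WW T := by
  intro h1
  apply hz
  have h2 := h.inv _ h1
  rwa [← pr_lam, mul_inv_cancel_left₀ lam_ne] at h2

theorem joined_map {W : Set ℂ} {x y : ℂ} (h : JoinedIn W x y) {f : ℂ → ℂ} (hf : Continuous f)
    (hW : ∀ z ∈ W, f z ∈ W) : JoinedIn W (f x) (f y) :=
  (h.map hf).mono (by rintro _ ⟨z, hz, rfl⟩; exact hW z hz)

theorem steps {T : Set Sph} (h : ICont T) (n : ℕ) : ∀ x y v : ℂ, v ∈ Lat → JoinedIn (WW T) x y →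
    (y = x + v ∨ y = -x + v) → (lam⁻¹) ^ n * v ∈ Lat := by
  induction n with
  | zero =>
    intro x y v hv _ _
    simpa using hv
  | succ n ih =>
    intro x y v hv hJ hxy
    have h1 := wind_step h.conn h.inf h.zero h.u hJ hv hxy
    have h2 : JoinedIn (WW T) (lam⁻¹ * x) (lam⁻¹ * y) :=
      joined_map hJ (continuous_const.mul continuous_id) fun z hz => WW_div h hz
    have h3 := ih (lam⁻¹ * x) (lam⁻¹ * y) (lam⁻¹ * v) h1 h2 (by
      rcases hxy with rfl | rfl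
      · left; ring
      · right; ring)
    rw [pow_succ, mul_assoc]
    exact h3

theorem trans_zero {T : Set Sph} (h : ICont T) {x y v : ℂ} (hv : v ∈ Lat)
    (hJ : JoinedIn (WW T) x y) (hxy : y = x + v ∨ y = -x + v) : v = 0 := by
  by_contra hv0
  obtain ⟨n, hn⟩ := ((tendsto_pow_atTop_atTop_of_one_lt one_lt_norm_lam).eventually_gt_atTop
    ‖v‖).exists
  have h1 := one_le_norm (steps h n x y v hv hJ hxy)
    (mul_ne_zero (pow_ne_zero n (inv_ne_zero lam_ne)) hv0)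
  have h3 : 0 < ‖lam‖ ^ n := pow_pos (by linarith [one_lt_norm_lam]) n
  rw [norm_mul, norm_pow, norm_inv, inv_pow, inv_mul_eq_div, le_div_iff₀ h3] at h1
  linarith

theorem no_neg {T : Set Sph} (h : ICont T) {x v : ℂ} (hv : v ∈ Lat) :
    ¬ JoinedIn (WW T) x (-x + v) := by
  intro hJ
  have h0 := trans_zero h hv hJ (Or.inr rfl)
  have h1 : JoinedIn (WW T) (x + 1) (-x + v + 1) :=
    joined_map hJ (continuous_id.add continuous_const) fun z hz => (WW_add one_mem).2 hz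
  have h2 := trans_zero h (Lat.add_mem hv (Lat.add_mem one_mem one_mem)) h1
    (Or.inr (by ring))
  rw [h0] at h2
  norm_num at h2

theorem comp_trans {T : Set Sph} (h : ICont T) {x0 x y : ℂ} (hx0 : x0 ∈ WW T)
    (hx : x ∈ connectedComponentIn (WW T) x0) (hy : y ∈ connectedComponentIn (WW T) x0) :
    JoinedIn (WW T) x y := by
  have hc : IsConnected (connectedComponentIn (WW T) x0) :=
    isConnected_connectedComponentIn_iff.2 hx0
  have hp : IsPathConnected (connectedComponentIn (WW T) x0) :=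
    ((WW_open h).connectedComponentIn).isConnected_iff_isPathConnected.1 hc
  exact (hp.joinedIn x hx y hy).mono (connectedComponentIn_subset _ _)

/-- every component is equivalent to every other -/
theorem comp_all {T : Set Sph} (h : ICont T) {x0 z : ℂ} (hx0 : x0 ∈ WW T) (hz : z ∈ WW T) :
    ∃ ε v : ℂ, (ε = 1 ∨ ε = -1) ∧ v ∈ Lat ∧ ε * z + v ∈ connectedComponentIn (WW T) x0 := by
  set V := connectedComponentIn (WW T) x0 with hV
  have hVo : IsOpen V := (WW_open h).connectedComponentIn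
  set A : Set Sph := pr '' V with hA
  set B : Set Sph := ⋃₀ {S | ∃ y, y ∈ WW T ∧ pr y ∉ A ∧ S = pr '' connectedComponentIn (WW T) y}
    with hB
  have hAo : IsOpen A := pr_isOpenMap _ hVo
  have hBo : IsOpen B := by
    apply isOpen_sUnion
    rintro S ⟨y, hy, -, rfl⟩
    exact pr_isOpenMap _ (WW_open h).connectedComponentIn
  have key : ∀ y ∈ WW T, ∀ a ∈ V, ∀ b ∈ connectedComponentIn (WW T) y, pr b = pr a → pr y ∈ A := by
    intro y hy a ha b hb hab
    have hsub : ∀ g : ℂ → ℂ, Continuous g → (∀ z ∈ WW T, g z ∈ WW T) → (∀ z, pr (g z) = pr z) →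
        g b = a → pr y ∈ A := by
      intro g hg hgW hgpr hgb
      have h1 : IsPreconnected (g '' connectedComponentIn (WW T) y) :=
        isPreconnected_connectedComponentIn.image g hg.continuousOn
      have h2 : g '' connectedComponentIn (WW T) y ⊆ WW T := by
        rintro _ ⟨c, hc, rfl⟩
        exact hgW c (connectedComponentIn_subset _ _ hc)
      have h3 : a ∈ g '' connectedComponentIn (WW T) y := ⟨b, hb, hgb⟩
      have h4 := h1.subset_connectedComponentIn h3 h2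
      rw [← connectedComponentIn_eq ha] at h4
      exact ⟨g y, h4 ⟨y, mem_connectedComponentIn hy, rfl⟩, hgpr y⟩
    rcases pr_eq_iff.1 hab.symm with hv | hv
    · exact hsub (fun z => z + (a - b)) (continuous_id.add continuous_const)
        (fun z hz => (WW_add hv).2 hz) (fun z => pr_add z hv) (by ring)
    · exact hsub (fun z => -z + (a + b)) (continuous_id.neg.add continuous_const)
        (fun z hz => (WW_add hv).2 (WW_neg.2 hz)) (fun z => by rw [pr_add _ hv, pr_neg]) (by ring)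
  have hdis : Disjoint A B := by
    rw [Set.disjoint_left]
    rintro _ ⟨a, ha, rfl⟩ ⟨S, ⟨y, hy, hyA, rfl⟩, b, hb, hab⟩
    exact hyA (key y hy a ha b hb hab)
  have hcov : Tᶜ ⊆ A ∪ B := by
    intro x hx
    obtain ⟨y, rfl⟩ := pr_surj x
    by_cases hyA : pr y ∈ A
    · exact Or.inl hyA
    · exact Or.inr ⟨_, ⟨y, hx, hyA, rfl⟩, y, mem_connectedComponentIn hx, rfl⟩
  have hsub := h.cconn.subset_left_of_subset_union hAo hBo hdis hcov
    ⟨pr x0, hx0, x0, mem_connectedComponentIn hx0, rfl⟩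
  obtain ⟨a, ha, hpa⟩ := hsub hz
  rcases pr_eq_iff.1 hpa with hv | hv
  · refine ⟨1, a - z, Or.inl rfl, hv, ?_⟩
    have : 1 * z + (a - z) = a := by ring
    rw [this]; exact ha
  · refine ⟨-1, a + z, Or.inr rfl, hv, ?_⟩
    have : -1 * z + (a + z) = a := by ring
    rw [this]; exact ha

theorem data {T : Set Sph} (h : ICont T) : ∃ (V : Set ℂ) (ε₀ ε₁ κ₀ κ₁ : ℂ), IsOpen V ∧ V.Nonempty ∧
    (∀ x ∈ V, ∀ v ∈ Lat, x + v ∈ V → v = 0) ∧ (∀ x ∈ V, ∀ v ∈ Lat, -x + v ∉ V) ∧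
    (ε₀ = 1 ∨ ε₀ = -1) ∧ (ε₁ = 1 ∨ ε₁ = -1) ∧ lam⁻¹ * κ₀ ∈ Lat ∧ κ₁ ∈ Lat ∧ lam⁻¹ * κ₁ ∉ Lat ∧
    (∀ x ∈ V, lam⁻¹ * (ε₀ * x + κ₀) ∈ V) ∧ (∀ x ∈ V, lam⁻¹ * (ε₁ * x + κ₁) ∈ V) := by
  obtain ⟨p, hp⟩ := h.ne
  obtain ⟨x0, rfl⟩ := pr_surj p
  have hx0 : x0 ∈ WW T := hp
  set V := connectedComponentIn (WW T) x0 with hV
  have hVx0 : x0 ∈ V := mem_connectedComponentIn hx0
  have hsign : ∀ ε : ℂ, (ε = 1 ∨ ε = -1) → ∀ z ∈ WW T, ε * z ∈ WW T := by
    rintro ε (rfl | rfl) z hz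
    · rwa [one_mul]
    · rw [neg_one_mul]; exact WW_neg.2 hz
  have hmap : ∀ ε a b : ℂ, (ε = 1 ∨ ε = -1) → a ∈ Lat → b ∈ Lat →
      ε * (lam⁻¹ * (x0 + a)) + b ∈ V → ∀ x ∈ V, ε * (lam⁻¹ * (x + a)) + b ∈ V := by
    intro ε a b hε ha hb hmem x hx
    have h1 : IsPreconnected ((fun x => ε * (lam⁻¹ * (x + a)) + b) '' V) :=
      isPreconnected_connectedComponentIn.image _ (by fun_prop)
    have h2 : (fun x => ε * (lam⁻¹ * (x + a)) + b) '' V ⊆ WW T := by
      rintro _ ⟨c, hc, rfl⟩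
      have hc' := connectedComponentIn_subset _ _ hc
      exact (WW_add hb).2 (hsign ε hε _ (WW_div h ((WW_add ha).2 hc')))
    have h3 := h1.subset_connectedComponentIn ⟨x0, hVx0, rfl⟩ h2
    rw [← connectedComponentIn_eq hmem] at h3
    exact h3 ⟨x, hx, rfl⟩
  obtain ⟨ε₀, v₀, he0, hv0, hm0⟩ := comp_all h hx0 (WW_div h hx0)
  obtain ⟨ε₁, v₁, he1, hv1, hm1⟩ := comp_all h hx0 (WW_div h ((WW_add one_mem).2 hx0))
  have hεL : ε₁ ∈ Lat := by
    rcases he1 with rfl | rfl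
    · exact one_mem
    · exact Lat.neg_mem one_mem
  refine ⟨V, ε₀, ε₁, lam * v₀, ε₁ + lam * v₁, (WW_open h).connectedComponentIn, ⟨x0, hVx0⟩,
    ?_, ?_, he0, he1, ?_, ?_, ?_, ?_, ?_⟩
  · intro x hx v hv hxv
    exact trans_zero h hv (comp_trans h hx0 hx hxv) (Or.inl rfl)
  · intro x hx v hv hxv
    exact no_neg h hv (comp_trans h hx0 hx hxv)
  · rw [inv_mul_cancel_left₀ lam_ne]; exact hv0
  · exact Lat.add_mem hεL (lam_mul_mem hv1)
  · intro hcon
    rw [mul_add, inv_mul_cancel_left₀ lam_ne] at hcon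
    have h1 := Lat.sub_mem hcon hv1
    rw [add_sub_cancel_right] at h1
    rcases he1 with rfl | rfl
    · exact one_ne_lam_mul h1 (by rw [mul_inv_cancel_left₀ lam_ne])
    · refine one_ne_lam_mul (Lat.neg_mem h1) ?_
      rw [mul_neg, mul_inv_cancel_left₀ lam_ne, neg_neg]
  · intro x hx
    have h1 := hmap ε₀ 0 v₀ he0 Lat.zero_mem hv0 (by rw [add_zero]; exact hm0) x hx
    convert h1 using 1
    rw [add_zero, mul_add, inv_mul_cancel_left₀ lam_ne]
    ring
  · intro x hx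
    have h1 := hmap ε₁ 1 v₁ he1 one_mem hv1 hm1 x hx
    convert h1 using 1
    rw [mul_add, mul_add, inv_mul_cancel_left₀ lam_ne]
    ring

end Pool.Agent.H208.CM
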