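import Pool.Agent.H208.CM.Mer

set_option autoImplicit false

/-!
# Facts on the Weierstrass function of the lattice `ℤ[λ]`
-/

noncomputable section

namespace Pool.Agent.H208.CM

open Filter Topology Set

/-- the Weierstrass function -/
def P : ℂ → ℂ := LP.weierstrassP
/-- its derivative -/
def D : ℂ → ℂ := LP.derivWeierstrassP

theorem isOpen_compl : IsOpen ((Lat : Set ℂ)ᶜ) := LP.isClosed_lattice.isOpen_compl

theorem P_add (z : ℂ) {v : ℂ} (hv : v ∈ Lat) : P (z + v) = P z :=
  LP.weierstrassP_add_coe z ⟨v, hv⟩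
theorem D_add (z : ℂ) {v : ℂ} (hv : v ∈ Lat) : D (z + v) = D z :=
  LP.derivWeierstrassP_add_coe z ⟨v, hv⟩
theorem P_neg (z : ℂ) : P (-z) = P z := LP.weierstrassP_neg z
theorem D_neg (z : ℂ) : D (-z) = -D z := LP.derivWeierstrassP_neg z
theorem deriv_P : deriv P = D := LP.deriv_weierstrassP
theorem P_an {z : ℂ} (hz : z ∉ Lat) : AnalyticAt ℂ P z := LP.analyticOnNhd_weierstrassP z hz
theorem D_an {z : ℂ} (hz : z ∉ Lat) : AnalyticAt ℂ D z := LP.analyticOnNhd_derivWeierstrassP z hz
theorem P_mero : Meromorphic P := LP.meromorphic_weierstrassP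
theorem D_mero : Meromorphic D := LP.meromorphic_derivWeierstrassP

theorem P_der {z : ℂ} (hz : z ∉ Lat) : HasDerivAt P (D z) z := by
  rw [← deriv_P]
  exact (P_an hz).differentiableAt.hasDerivAt

theorem codis_not_mem : ∀ᶠ z in codiscrete ℂ, z ∉ Lat := by
  apply codis_of_ev
  intro x
  have h1 : (↑LP.lattice \ {x})ᶜ ∈ 𝓝 x := LP.compl_lattice_sdiff_singleton_mem_nhds x
  filter_upwards [self_mem_nhdsWithin, mem_nhdsWithin_of_mem_nhds h1] with w hw1 hw2 hw3
  exact hw2 ⟨hw3, hw1⟩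

theorem ev_not_mem {z : ℂ} (hz : z ∉ Lat) : ∀ᶠ w in 𝓝 z, w ∉ Lat := isOpen_compl.mem_nhds hz

/-- double poles at the lattice points -/
theorem P_pole {l : ℂ} (hl : l ∈ Lat) : ∃ a : ℂ → ℂ, AnalyticAt ℂ a l ∧ a l = 1 ∧
    ∀ w, w ≠ l → P w = a w / (w - l) ^ 2 := by
  refine ⟨fun z ↦ (z - l) ^ 2 * LP.weierstrassPExcept l z + 1 - (z - l) ^ 2 / l ^ 2, ?_, by simp, ?_⟩
  · have h1 : AnalyticAt ℂ (LP.weierstrassPExcept l) l := LP.analyticOnNhd_weierstrassPExcept l l (by simp)
    have h2 : AnalyticAt ℂ (fun z : ℂ => (z - l) ^ 2) l :=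
      (analyticAt_id.sub analyticAt_const).pow 2
    have h3 : AnalyticAt ℂ (fun z : ℂ => (z - l) ^ 2 / l ^ 2) l := by
      by_cases h0 : l = 0
      · simpa [h0] using analyticAt_const
      · exact h2.div analyticAt_const (pow_ne_zero 2 h0)
    exact ((h2.mul h1).add analyticAt_const).sub h3
  · intro w hw
    have h1 := LP.ite_eq_one_sub_sq_mul_weierstrassP l hl w
    rw [if_neg hw] at h1
    have h2 : (w - l) ^ 2 ≠ 0 := pow_ne_zero 2 (sub_ne_zero.2 hw)
    rw [eq_div_iff h2, mul_comm]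
    exact h1

theorem P_cobdd {l : ℂ} (hl : l ∈ Lat) : Tendsto P (𝓝[≠] l) (Bornology.cobounded ℂ) := by
  apply tendsto_cobounded_of_meromorphicOrderAt_neg
  show meromorphicOrderAt LP.weierstrassP l < 0
  rw [LP.order_weierstrassP l hl]
  decide

theorem no_both {f : ℂ → ℂ} {x c : ℂ} (h1 : Tendsto f (𝓝[≠] x) (Bornology.cobounded ℂ))
    (h2 : Tendsto f (𝓝[≠] x) (𝓝 c)) : False := by
  have h3 : Disjoint (map f (𝓝[≠] x)) (map f (𝓝[≠] x)) :=
    (Metric.disjoint_nhds_cobounded c).mono h2 h1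
  rw [disjoint_self] at h3
  exact NeBot.ne (f := map f (𝓝[≠] x)) inferInstance h3

theorem P_not_const (c : ℂ) : ¬ ∀ᶠ z in codiscrete ℂ, P z = c := by
  intro h
  have h1 := P_cobdd Lat.zero_mem
  have h2 : Tendsto P (𝓝[≠] 0) (𝓝 c) :=
    tendsto_const_nhds.congr' ((codis_ev h 0).mono fun z hz => hz.symm)
  exact no_both h1 h2

/-- the Weierstrass function takes all values -/
theorem P_surj (c : ℂ) : ∃ z, z ∉ Lat ∧ P z = c := by
  by_contra hcon
  push Not at hcon
  have hg : Meromorphic fun z => (P z - c)⁻¹ :=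
    fun z => ((P_mero z).sub (MeromorphicAt.const c z)).inv
  obtain ⟨c', hc'⟩ := ell_const hg (fun z v hv => by rw [P_add z hv]) (by
    intro z
    by_cases hz : z ∈ Lat
    · obtain ⟨a, ha, ha1, haP⟩ := P_pole hz
      have han : AnalyticAt ℂ (fun w => a w - c * (w - z) ^ 2) z :=
        ha.sub (analyticAt_const.mul ((analyticAt_id.sub analyticAt_const).pow 2))
      have hne : a z - c * (z - z) ^ 2 ≠ 0 := by simp [ha1]
      refine ⟨fun w => (w - z) ^ 2 / (a w - c * (w - z) ^ 2),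
        ((analyticAt_id.sub analyticAt_const).pow 2).div han hne, ?_⟩
      filter_upwards [self_mem_nhdsWithin] with w hw
      have h2 : (w - z) ^ 2 ≠ 0 := pow_ne_zero 2 (sub_ne_zero.2 hw)
      have h5 : P w - c = (a w - c * (w - z) ^ 2) / (w - z) ^ 2 := by
        rw [haP w hw, sub_div, mul_div_cancel_right₀ _ h2]
      rw [h5, inv_div]
    · exact Rem.of_an (((P_an hz).sub analyticAt_const).inv (sub_ne_zero.2 (hcon z hz))))
  have h1 : Tendsto (fun z => (P z - c)⁻¹) (𝓝[≠] 0) (𝓝 0) := by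
    have h2 : Tendsto (fun z => P z - c) (𝓝[≠] 0) (Bornology.cobounded ℂ) :=
      (tendsto_sub_const_cobounded c).comp (P_cobdd Lat.zero_mem)
    exact tendsto_inv₀_cobounded.comp h2
  have h2 : Tendsto (fun z => (P z - c)⁻¹) (𝓝[≠] 0) (𝓝 c') :=
    tendsto_const_nhds.congr' ((codis_ev hc' 0).mono fun z hz => hz.symm)
  have h3 : c' = 0 := tendsto_nhds_unique h2 h1
  obtain ⟨z, hz1, hz2⟩ := (hc'.and codis_not_mem).exists
  rw [h3, inv_eq_zero, sub_eq_zero] at hz1
  exact hcon z hz2 hz1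

theorem D_not_zero : ¬ ∀ᶠ z in codiscrete ℂ, D z = 0 := by
  intro h
  have hc : IsConnected ((Lat : Set ℂ)ᶜ) := by
    have hcount : (Lat : Set ℂ).Countable := by
      have : Countable Lat := inferInstance
      exact Set.to_countable _
    exact hcount.isConnected_compl_of_one_lt_rank (E := ℂ) (by
      rw [Complex.rank_real_complex]
      exact Nat.one_lt_ofNat)
  have h0 : ∀ z ∉ Lat, D z = 0 := fun z hz =>
    eq_of_codis (f := D) (g := fun _ => 0) h (D_an hz).continuousAt continuousAt_const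
  obtain ⟨z0, hz0⟩ := hc.nonempty
  have h1 : ∀ z ∈ (Lat : Set ℂ)ᶜ, P z = P z0 := by
    intro z hz
    exact isOpen_compl.is_const_of_deriv_eq_zero hc.isPreconnected
      (fun w hw => (P_an hw).differentiableAt.differentiableWithinAt)
      (fun w hw => by rw [deriv_P]; exact h0 w hw) hz hz0
  apply P_not_const (P z0)
  filter_upwards [codis_not_mem] with z hz
  exact h1 z hz

theorem D_der {z : ℂ} (hz : z ∉ Lat) : HasDerivAt D (6 * P z ^ 2 - LP.g₂ / 2) z := by
  have key : ∀ z ∉ Lat, deriv D z = 6 * P z ^ 2 - LP.g₂ / 2 := by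
    intro z hz
    have h1 : ∀ z ∉ Lat, D z * (2 * deriv D z - (12 * P z ^ 2 - LP.g₂)) = 0 := by
      intro z hz
      have hrel : (fun w => D w ^ 2 - 4 * P w ^ 3 + LP.g₂ * P w + LP.g₃) =ᶠ[𝓝 z] fun _ => 0 := by
        filter_upwards [ev_not_mem hz] with w hw
        have := LP.derivWeierstrassP_sq w hw
        show D w ^ 2 - 4 * P w ^ 3 + LP.g₂ * P w + LP.g₃ = 0
        have h2 : D w ^ 2 = 4 * P w ^ 3 - LP.g₂ * P w - LP.g₃ := this
        rw [h2]; ring
      have hD := (D_an hz).differentiableAt.hasDerivAt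
      have hP := P_der hz
      have h3 := (((hD.pow 2).sub ((hP.pow 3).const_mul 4)).add (hP.const_mul LP.g₂)).add_const LP.g₃
      have h4 := hrel.deriv_eq
      rw [deriv_const] at h4
      have h5 := h3.deriv
      have h6 : deriv (fun w => D w ^ 2 - 4 * P w ^ 3 + LP.g₂ * P w + LP.g₃) z = _ := h5
      rw [h4] at h6
      simp only [Nat.cast_ofNat] at h6
      linear_combination -h6
    have h2 : ∀ᶠ z in codiscrete ℂ, deriv D z = 6 * P z ^ 2 - LP.g₂ / 2 := by
      filter_upwards [mero_ne D_mero D_not_zero, codis_not_mem] with w hw1 hw2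
      have := (mul_eq_zero.1 (h1 w hw2)).resolve_left hw1
      linear_combination this / 2
    exact eq_of_codis (f := deriv D) h2 (D_an hz).deriv.continuousAt
      (by
        have := (P_an hz).continuousAt
        fun_prop)
  rw [← key z hz]
  exact (D_an hz).differentiableAt.hasDerivAt

/-- equal values and derivatives -/
theorem P_inj_aux {z w : ℂ} (hz : z ∉ Lat) (hw : w ∉ Lat) (h0 : P z = P w) (h1 : D z = D w) :
    z - w ∈ Lat := by
  -- `d t = P (z + t) - P (w + t)`
  have hzs : ∀ᶠ t in 𝓝 (0 : ℂ), z + t ∉ Lat := by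
    have h : Tendsto (fun t : ℂ => z + t) (𝓝 0) (𝓝 (z + 0)) :=
      (continuous_const.add continuous_id).tendsto 0
    rw [add_zero] at h
    exact h.eventually (ev_not_mem hz)
  have hws : ∀ᶠ t in 𝓝 (0 : ℂ), w + t ∉ Lat := by
    have h : Tendsto (fun t : ℂ => w + t) (𝓝 0) (𝓝 (w + 0)) :=
      (continuous_const.add continuous_id).tendsto 0
    rw [add_zero] at h
    exact h.eventually (ev_not_mem hw)
  have an_add : ∀ (f : ℂ → ℂ) (z : ℂ), AnalyticAt ℂ f z → AnalyticAt ℂ (fun t => f (z + t)) 0 := by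
    intro f z hf
    have h : AnalyticAt ℂ (fun t : ℂ => z + t) 0 := analyticAt_const.add analyticAt_id
    exact AnalyticAt.fun_comp (f := fun t : ℂ => z + t) (by simpa using hf) h
  set d : ℂ → ℂ := fun t => P (z + t) - P (w + t) with hd
  have hdan : AnalyticAt ℂ d 0 := (an_add P z (P_an hz)).sub (an_add P w (P_an hw))
  have hd1 : ∀ᶠ t in 𝓝 (0 : ℂ), HasDerivAt d (D (z + t) - D (w + t)) t := by
    filter_upwards [hzs, hws] with t h1 h2
    exact ((P_der h1).comp_const_add z t).sub ((P_der h2).comp_const_add w t)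
  have hd1' : deriv d =ᶠ[𝓝 0] fun t => D (z + t) - D (w + t) := hd1.mono fun t ht => ht.deriv
  have hd2 : ∀ᶠ t in 𝓝 (0 : ℂ), HasDerivAt (fun t => D (z + t) - D (w + t))
      (6 * (P (z + t) + P (w + t)) * d t) t := by
    filter_upwards [hzs, hws] with t h1 h2
    have h3 := ((D_der h1).comp_const_add z t).sub ((D_der h2).comp_const_add w t)
    have h4 : 6 * (P (z + t) + P (w + t)) * d t =
        (6 * P (z + t) ^ 2 - LP.g₂ / 2) - (6 * P (w + t) ^ 2 - LP.g₂ / 2) := by
      show 6 * (P (z + t) + P (w + t)) * (P (z + t) - P (w + t)) = _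
      ring
    rw [h4]
    exact h3
  have hd2' : deriv (deriv d) =ᶠ[𝓝 0] fun t => 6 * (P (z + t) + P (w + t)) * d t := by
    have h3 : deriv (deriv d) =ᶠ[𝓝 0] deriv (fun t => D (z + t) - D (w + t)) := hd1'.deriv
    exact h3.trans (hd2.mono fun t ht => ht.deriv)
  have hq : AnalyticAt ℂ (fun t => 6 * (P (z + t) + P (w + t))) 0 :=
    analyticAt_const.mul ((an_add P z (P_an hz)).add (an_add P w (P_an hw)))
  have hord : analyticOrderAt d 0 = ⊤ := by
    by_contra hne
    obtain ⟨n, hn⟩ := ENat.ne_top_iff_exists.1 hne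
    have hd0 : d 0 = 0 := by simp [hd, h0]
    have hdd0 : deriv d 0 = 0 := by
      rw [hd1'.self_of_nhds]; simp [h1]
    have e1 := hdan.analyticOrderAt_deriv_add_one
    have e2 := hdan.deriv.analyticOrderAt_deriv_add_one
    have e1 : analyticOrderAt (deriv d) 0 + 1 = analyticOrderAt d 0 := by
      rw [e1]
      congr 1
      funext t
      rw [hd0, sub_zero]
    have e2 : analyticOrderAt (deriv (deriv d)) 0 + 1 = analyticOrderAt (deriv d) 0 := by
      rw [e2]
      congr 1
      funext t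
      rw [hdd0, sub_zero]
    have e3 : analyticOrderAt (deriv (deriv d)) 0 =
        analyticOrderAt (fun t => 6 * (P (z + t) + P (w + t))) 0 + analyticOrderAt d 0 := by
      rw [analyticOrderAt_congr hd2']
      exact analyticOrderAt_mul hq hdan
    have e1' : analyticOrderAt (deriv d) 0 + 1 = (n : ℕ∞) := by rw [e1, hn]
    have e2' : analyticOrderAt (deriv (deriv d)) 0 + 1 = analyticOrderAt (deriv d) 0 := e2
    rw [← hn] at e3
    generalize analyticOrderAt (deriv (deriv d)) 0 = x at *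
    generalize analyticOrderAt (deriv d) 0 = y at *
    generalize analyticOrderAt (fun t => 6 * (P (z + t) + P (w + t))) 0 = q at *
    have hx : x ≠ ⊤ := by
      rintro rfl
      rw [← e2'] at e1'
      simp at e1'
    obtain ⟨x', rfl⟩ := ENat.ne_top_iff_exists.1 hx
    have h5 : (n : ℕ∞) ≤ x' := by rw [e3]; exact le_add_self
    have h6 : ((x' + 1 + 1 : ℕ) : ℕ∞) = n := by
      rw [← e1', ← e2']; push_cast; rfl
    rw [← h6] at h5
    have h7 : x' + 1 + 1 ≤ x' := by exact_mod_cast h5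
    omega
  have hev : ∀ᶠ t in 𝓝 (0 : ℂ), d t = 0 := analyticOrderAt_eq_top.1 hord
  -- `P (· + (z - w)) = P`
  have hev2 : ∀ᶠ s in 𝓝 w, P (s + (z - w)) = P s := by
    have h : Tendsto (fun s : ℂ => s - w) (𝓝 w) (𝓝 0) := by
      have : Tendsto (fun s : ℂ => s - w) (𝓝 w) (𝓝 (w - w)) :=
        (continuous_id.sub continuous_const).tendsto w
      simpa using this
    filter_upwards [h.eventually hev] with s hs
    simp only [hd, sub_eq_zero] at hs
    have e1 : z + (s - w) = s + (z - w) := by ring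
    have e2 : w + (s - w) = s := by ring
    rwa [e1, e2] at hs
  have hall := mero_id2 (mero_comp_add P_mero (z - w)) P_mero (freq_of_ev hev2)
  by_contra hnot
  have h2 : Tendsto (fun s => P (s + (z - w))) (𝓝[≠] 0) (𝓝 (P (z - w))) := by
    have h3 : ContinuousAt (fun s => P (s + (z - w))) 0 := by
      have h4 : ContinuousAt P (0 + (z - w)) := by rw [zero_add]; exact (P_an hnot).continuousAt
      exact ContinuousAt.comp (f := fun s : ℂ => s + (z - w)) h4 (by fun_prop)
    have h5 := h3.tendsto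
    simp only [zero_add] at h5
    exact h5.mono_left nhdsWithin_le_nhds
  have h3 : Tendsto P (𝓝[≠] 0) (𝓝 (P (z - w))) := h2.congr' (codis_ev hall 0)
  have h1 := P_cobdd Lat.zero_mem
  exact no_both h1 h3

/-- the Weierstrass function is injective up to periods and sign -/
theorem P_inj {z w : ℂ} (hz : z ∉ Lat) (hw : w ∉ Lat) (h : P z = P w) :
    z - w ∈ Lat ∨ z + w ∈ Lat := by
  have h1 : D z ^ 2 = D w ^ 2 := by
    have e1 : D z ^ 2 = 4 * P z ^ 3 - LP.g₂ * P z - LP.g₃ := LP.derivWeierstrassP_sq z hz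
    have e2 : D w ^ 2 = 4 * P w ^ 3 - LP.g₂ * P w - LP.g₃ := LP.derivWeierstrassP_sq w hw
    rw [e1, e2, h]
  rcases sq_eq_sq_iff_eq_or_eq_neg.1 h1 with h2 | h2
  · exact Or.inl (P_inj_aux hz hw h h2)
  · right
    have hw' : -w ∉ Lat := fun h => hw (by simpa using Lat.neg_mem h)
    have := P_inj_aux hz hw' (by rw [P_neg, h]) (by rw [D_neg, h2])
    simpa using this

end Pool.Agent.H208.CM
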