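import Pool.Agent.H208.CM.Fmap

set_option autoImplicit false

/-!
# The Lattès map is expanding
-/

noncomputable section

namespace Pool.Agent.H208.CM

open Filter Topology Set OnePoint Pool.Agent.H208.Thu

/-- the boundary of the parallelogram with coordinates in `[0, 1/2]` -/
def bR : Set ℂ := {z | max |4 * cs z - 1| |4 * ct z - 1| = 1}

/-- its image, a Jordan curve -/
def CC : Set Sph := pr '' bR

/-- `1, λ`-coordinates -/
theorem mk_Lat (m n : ℤ) : (m : ℂ) + n * lam ∈ Lat := mem_Lat.2 ⟨m, n, rfl⟩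

theorem mem_bR_of {z : ℂ} (hs : 0 ≤ cs z) (hs' : cs z ≤ 1 / 2) (ht : 0 ≤ ct z) (ht' : ct z ≤ 1 / 2)
    (h : (cs z = 0 ∨ cs z = 1 / 2) ∨ (ct z = 0 ∨ ct z = 1 / 2)) : z ∈ bR := by
  have h1 : |4 * cs z - 1| ≤ 1 := abs_le.2 ⟨by linarith, by linarith⟩
  have h2 : |4 * ct z - 1| ≤ 1 := abs_le.2 ⟨by linarith, by linarith⟩
  show max |4 * cs z - 1| |4 * ct z - 1| = 1
  rcases h with (h | h) | (h | h)
  · have : |4 * cs z - 1| = 1 := by rw [h]; norm_num
    rw [this]; exact max_eq_left h2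
  · have : |4 * cs z - 1| = 1 := by rw [h]; norm_num
    rw [this]; exact max_eq_left h2
  · have : |4 * ct z - 1| = 1 := by rw [h]; norm_num
    rw [this]; exact max_eq_right h1
  · have : |4 * ct z - 1| = 1 := by rw [h]; norm_num
    rw [this]; exact max_eq_right h1

theorem bR_bounds {z : ℂ} (h : z ∈ bR) : (0 ≤ cs z ∧ cs z ≤ 1 / 2) ∧ (0 ≤ ct z ∧ ct z ≤ 1 / 2) := by
  have h0 : max |4 * cs z - 1| |4 * ct z - 1| = 1 := h
  have h1 : |4 * cs z - 1| ≤ 1 := (le_max_left _ _).trans h0.le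
  have h2 : |4 * ct z - 1| ≤ 1 := (le_max_right _ _).trans h0.le
  rw [abs_le] at h1 h2
  exact ⟨⟨by linarith, by linarith⟩, by linarith, by linarith⟩

/-- the grid -/
def Gr : Set ℂ := {z | ∃ k : ℤ, 2 * cs z = k ∨ 2 * ct z = k}

theorem int_frac {x : ℝ} (h0 : 0 ≤ x) (h1 : x < 1) {k : ℤ} (hk : 2 * x = k) : x = 0 ∨ x = 1 / 2 := by
  have h2 : (0 : ℝ) ≤ k := by rw [← hk]; linarith
  have h3 : (k : ℝ) < 2 := by rw [← hk]; linarith
  have h4 : 0 ≤ k := by exact_mod_cast h2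
  have h5 : k < 2 := by exact_mod_cast h3
  have h6 : k = 0 ∨ k = 1 := by omega
  rcases h6 with rfl | rfl
  · left; push_cast at hk; linarith
  · right; push_cast at hk; linarith

theorem pr_mem_CC {z : ℂ} (hz : z ∈ Gr) : pr z ∈ CC := by
  obtain ⟨k, hk⟩ := hz
  set s := Int.fract (cs z) with hs
  set t := Int.fract (ct z) with ht
  have hs0 : 0 ≤ s := Int.fract_nonneg _
  have hs1 : s < 1 := Int.fract_lt_one _
  have ht0 : 0 ≤ t := Int.fract_nonneg _
  have ht1 : t < 1 := Int.fract_lt_one _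
  have hz' : pr z = pr ((s : ℂ) + t * lam) := by
    have h1 := pr_add z (Lat.neg_mem (mk_Lat ⌊cs z⌋ ⌊ct z⌋))
    rw [← h1]
    congr 1
    nth_rewrite 1 [← coord z]
    simp only [hs, ht, Int.fract, Complex.ofReal_sub, Complex.ofReal_intCast]
    ring
  have hk' : ∃ k : ℤ, 2 * s = k ∨ 2 * t = k := by
    rcases hk with hk | hk
    · refine ⟨k - 2 * ⌊cs z⌋, Or.inl ?_⟩
      push_cast
      rw [hs, Int.fract, ← hk]
      ring
    · refine ⟨k - 2 * ⌊ct z⌋, Or.inr ?_⟩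
      push_cast
      rw [ht, Int.fract, ← hk]
      ring
  clear_value s t
  have hor : (s = 0 ∨ s = 1 / 2) ∨ (t = 0 ∨ t = 1 / 2) := by
    obtain ⟨k, hk | hk⟩ := hk'
    · exact Or.inl (int_frac hs0 hs1 hk)
    · exact Or.inr (int_frac ht0 ht1 hk)
  rw [hz']
  by_cases hs2 : s ≤ 1 / 2
  · by_cases ht2 : t ≤ 1 / 2
    · refine ⟨_, ?_, rfl⟩
      apply mem_bR_of <;> simp only [cs_mk, ct_mk] <;> assumption
    · -- `s ∈ {0, 1/2}`
      have hs3 : s = 0 ∨ s = 1 / 2 := by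
        rcases hor with h | h | h
        · exact h
        · exfalso; linarith
        · exfalso; linarith
      refine ⟨(s : ℂ) + ((1 - t : ℝ) : ℂ) * lam, ?_, ?_⟩
      · apply mem_bR_of
        · rw [cs_mk]; exact hs0
        · rw [cs_mk]; exact hs2
        · rw [ct_mk]; linarith
        · rw [ct_mk]; linarith
        · rw [cs_mk]; exact Or.inl hs3
      · rw [pr_eq_iff]
        right
        rcases hs3 with rfl | rfl
        · rw [mem_Lat]
          refine ⟨0, 1, ?_⟩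
          push_cast
          ring
        · rw [mem_Lat]
          refine ⟨1, 1, ?_⟩
          push_cast
          ring
  · have ht3 : t = 0 ∨ t = 1 / 2 := by
        rcases hor with (h | h) | h
        · exfalso; linarith
        · exfalso; linarith
        · exact h
    have ht2 : t ≤ 1 / 2 := by rcases ht3 with h | h <;> linarith
    refine ⟨((1 - s : ℝ) : ℂ) + (t : ℂ) * lam, ?_, ?_⟩
    · apply mem_bR_of
      · rw [cs_mk]; linarith
      · rw [cs_mk]; linarith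
      · rw [ct_mk]; linarith
      · rw [ct_mk]; linarith
      · rw [ct_mk]; exact Or.inr ht3
    · rw [pr_eq_iff]
      right
      rcases ht3 with rfl | rfl
      · rw [mem_Lat]
        refine ⟨1, 0, ?_⟩
        push_cast
        ring
      · rw [mem_Lat]
        refine ⟨1, 1, ?_⟩
        push_cast
        ring

theorem Gr_of_two_mul {z : ℂ} (h : 2 * z ∈ Lat) : z ∈ Gr := by
  obtain ⟨m, n, h1, h2⟩ := mem_Lat_iff.1 h
  refine ⟨m, Or.inl ?_⟩
  rw [← h1, two_mul, two_mul, cs_add]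

theorem post_subset : post F ⊆ CC := by
  rw [post_eq]
  have h0 : (∞ : Sph) ∈ CC := by
    rw [← pr_mem Lat.zero_mem]
    exact pr_mem_CC (Gr_of_two_mul (by simp))
  have h1 : ((0 : ℂ) : Sph) ∈ CC := by
    have h := pr_mem_CC (Gr_of_two_mul two_om_mem)
    rwa [pr_not om_not_mem, X_om] at h
  obtain ⟨z, hz⟩ := pr_surj ((-1 : ℂ) : Sph)
  have hz2 : 2 * z + om ∈ Lat := by
    have e1 : pr (z + om) = pr z := by
      rw [pr_shift, hz, inv_coe_ne (by norm_num)]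
      norm_num
    rcases pr_eq_iff.1 e1 with h | h
    · exact absurd (by simpa using h) om_not_mem
    · convert h using 1; ring
  have hw : 2 * (lam * z) ∈ Lat := by
    have e1 := Lat.sub_mem (lam_mul_mem hz2) one_mem
    convert e1 using 1
    linear_combination (-1 : ℂ) * lam_om
  have hw2 : 2 * (lam * (lam * z)) ∈ Lat := by
    have e1 := lam_mul_mem hw
    convert e1 using 1
    ring
  have h2 : (uu : Sph) ∈ CC := by
    have h := pr_mem_CC (Gr_of_two_mul hw)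
    rwa [pr_lam, hz, F_neg_one] at h
  have h3 : ((uu⁻¹ : ℂ) : Sph) ∈ CC := by
    have h := pr_mem_CC (Gr_of_two_mul hw2)
    rwa [pr_lam, pr_lam, hz, F_neg_one, F_uu] at h
  rintro x (rfl | rfl | rfl | h)
  · exact h0
  · exact h1
  · exact h2
  · have h' : x = ((uu⁻¹ : ℂ) : Sph) := h
    rw [h']; exact h3

theorem bR_inj {z w : ℂ} (hz : z ∈ bR) (hw : w ∈ bR) (h : pr z = pr w) : z = w := by
  obtain ⟨⟨a1, a2⟩, a3, a4⟩ := bR_bounds hz
  obtain ⟨⟨b1, b2⟩, b3, b4⟩ := bR_bounds hw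
  have key : cs z = cs w ∧ ct z = ct w := by
    rcases pr_eq_iff.1 h with h | h
    · obtain ⟨m, n, h1, h2⟩ := mem_Lat_iff.1 h
      rw [cs_sub] at h1
      rw [ct_sub] at h2
      have c1 : (-1 : ℝ) < m := by linarith
      have c2 : (m : ℝ) < 1 := by linarith
      have c3 : (-1 : ℝ) < n := by linarith
      have c4 : (n : ℝ) < 1 := by linarith
      have d1 : -1 < m := by exact_mod_cast c1
      have d2 : m < 1 := by exact_mod_cast c2
      have d3 : -1 < n := by exact_mod_cast c3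
      have d4 : n < 1 := by exact_mod_cast c4
      have e1 : m = 0 := by omega
      have e2 : n = 0 := by omega
      rw [e1] at h1
      rw [e2] at h2
      push_cast at h1 h2
      exact ⟨by linarith, by linarith⟩
    · obtain ⟨m, n, h1, h2⟩ := mem_Lat_iff.1 h
      rw [cs_add] at h1
      rw [ct_add] at h2
      have aux : ∀ (x y : ℝ) (m : ℤ), 0 ≤ x → x ≤ 1 / 2 → 0 ≤ y → y ≤ 1 / 2 → x + y = m → x = y := by
        intro x y m hx hx' hy hy' hm
        have c1 : (-1 : ℝ) < m := by linarith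
        have c2 : (m : ℝ) < 2 := by linarith
        have d1 : -1 < m := by exact_mod_cast c1
        have d2 : m < 2 := by exact_mod_cast c2
        have e1 : m = 0 ∨ m = 1 := by omega
        rcases e1 with rfl | rfl
        · push_cast at hm; linarith
        · push_cast at hm; linarith
      exact ⟨aux _ _ m a1 a2 b1 b2 h1, aux _ _ n a3 a4 b3 b4 h2⟩
  rw [← coord z, ← coord w, key.1, key.2]

/-- a parametrisation of the boundary -/
def gam (p : ℂ) : ℂ := ((1 / 4 + p.re / (4 * max |p.re| |p.im|) : ℝ) : ℂ) +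
  ((1 / 4 + p.im / (4 * max |p.re| |p.im|) : ℝ) : ℂ) * lam

theorem mx_pos {p : ℂ} (hp : p ≠ 0) : 0 < max |p.re| |p.im| := by
  by_contra h
  have h1 : |p.re| ≤ 0 := (le_max_left _ _).trans (not_lt.1 h)
  have h2 : |p.im| ≤ 0 := (le_max_right _ _).trans (not_lt.1 h)
  have h3 := abs_eq_zero.1 (le_antisymm h1 (abs_nonneg _))
  have h4 := abs_eq_zero.1 (le_antisymm h2 (abs_nonneg _))
  exact hp (Complex.ext h3 h4)

theorem gam_cs {p : ℂ} (hp : p ≠ 0) : 4 * cs (gam p) - 1 = p.re / max |p.re| |p.im| := by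
  have h := (mx_pos hp).ne'
  unfold gam
  rw [cs_mk]
  field_simp
  ring

theorem gam_ct {p : ℂ} (hp : p ≠ 0) : 4 * ct (gam p) - 1 = p.im / max |p.re| |p.im| := by
  have h := (mx_pos hp).ne'
  unfold gam
  rw [ct_mk]
  field_simp
  ring

theorem gam_mem {p : ℂ} (hp : p ≠ 0) : gam p ∈ bR := by
  have h := mx_pos hp
  show max |4 * cs (gam p) - 1| |4 * ct (gam p) - 1| = 1
  rw [gam_cs hp, gam_ct hp, abs_div, abs_div, abs_of_pos h, max_div_div_right h.le,
    div_self h.ne']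

theorem circle_ne (ζ : Circle) : (ζ : ℂ) ≠ 0 := by
  intro h
  have := ζ.norm_coe
  rw [h, norm_zero] at this
  exact zero_ne_one this

theorem gam_inj {ζ ξ : Circle} (h : gam ζ = gam ξ) : ζ = ξ := by
  have h1 := gam_cs (circle_ne ζ)
  have h2 := gam_ct (circle_ne ζ)
  rw [h, gam_cs (circle_ne ξ)] at h1
  rw [h, gam_ct (circle_ne ξ)] at h2
  have p1 := mx_pos (circle_ne ζ)
  have p2 := mx_pos (circle_ne ξ)
  have n1 : (ζ : ℂ).re ^ 2 + (ζ : ℂ).im ^ 2 = 1 := by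
    have := ζ.norm_coe
    have h3 := Complex.sq_norm (ζ : ℂ)
    rw [this, Complex.normSq_apply] at h3
    linarith
  have n2 : (ξ : ℂ).re ^ 2 + (ξ : ℂ).im ^ 2 = 1 := by
    have := ξ.norm_coe
    have h3 := Complex.sq_norm (ξ : ℂ)
    rw [this, Complex.normSq_apply] at h3
    linarith
  generalize max |(ζ : ℂ).re| |(ζ : ℂ).im| = m at *
  generalize max |(ξ : ℂ).re| |(ξ : ℂ).im| = m' at *
  rw [div_eq_div_iff p2.ne' p1.ne'] at h1 h2
  have h3 : m ^ 2 = m' ^ 2 := by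
    have e1 : m ^ 2 = ((ξ : ℂ).re * m) ^ 2 + ((ξ : ℂ).im * m) ^ 2 := by
      rw [mul_pow, mul_pow, ← add_mul, n2, one_mul]
    rw [e1, h1, h2, mul_pow, mul_pow, ← add_mul, n1, one_mul]
  have h4 : m = m' := (sq_eq_sq₀ p1.le p2.le).1 h3
  subst h4
  apply Circle.ext
  apply Complex.ext
  · exact (mul_right_cancel₀ p1.ne' h1).symm
  · exact (mul_right_cancel₀ p1.ne' h2).symm

theorem gam_surj {z : ℂ} (hz : z ∈ bR) : ∃ ζ : Circle, gam ζ = z := by
  have h0 : max |4 * cs z - 1| |4 * ct z - 1| = 1 := hz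
  set q : ℂ := ⟨4 * cs z - 1, 4 * ct z - 1⟩ with hq
  have hq0 : q ≠ 0 := by
    intro h
    have h1 : 4 * cs z - 1 = 0 := congrArg Complex.re h
    have h2 : 4 * ct z - 1 = 0 := congrArg Complex.im h
    rw [h1, h2] at h0
    norm_num at h0
  have hn : 0 < ‖q‖ := norm_pos_iff.2 hq0
  have hmem : (q / ‖q‖ : ℂ) ∈ Submonoid.unitSphere ℂ := by
    rw [Submonoid.unitSphere, ← SetLike.mem_coe]
    show (q / ‖q‖ : ℂ) ∈ Metric.sphere (0 : ℂ) 1
    rw [mem_sphere_zero_iff_norm, norm_div, Complex.norm_real, norm_norm, div_self hn.ne']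
  refine ⟨⟨q / ‖q‖, hmem⟩, ?_⟩
  have hre : (q / ‖q‖ : ℂ).re = (4 * cs z - 1) / ‖q‖ := by
    rw [Complex.div_ofReal_re]
  have him : (q / ‖q‖ : ℂ).im = (4 * ct z - 1) / ‖q‖ := by
    rw [Complex.div_ofReal_im]
  show gam (q / ‖q‖ : ℂ) = z
  have hmax : max |(q / ‖q‖ : ℂ).re| |(q / ‖q‖ : ℂ).im| = 1 / ‖q‖ := by
    rw [hre, him, abs_div, abs_div, abs_of_pos hn, max_div_div_right hn.le, h0]
  have hne : (q / ‖q‖ : ℂ) ≠ 0 := div_ne_zero hq0 (by exact_mod_cast hn.ne')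
  have c1 := gam_cs hne
  have c2 := gam_ct hne
  rw [hmax, hre] at c1
  rw [hmax, him] at c2
  have e1 : cs (gam (q / ‖q‖ : ℂ)) = cs z := by
    have : (4 * cs z - 1) / ‖q‖ / (1 / ‖q‖) = 4 * cs z - 1 := by field_simp
    rw [this] at c1
    linarith
  have e2 : ct (gam (q / ‖q‖ : ℂ)) = ct z := by
    have : (4 * ct z - 1) / ‖q‖ / (1 / ‖q‖) = 4 * ct z - 1 := by field_simp
    rw [this] at c2
    linarith
  rw [← coord (gam (q / ‖q‖ : ℂ)), ← coord z, e1, e2]

theorem CC_jordan : IsJordanCurve CC := by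
  refine ⟨fun ζ => pr (gam ζ), ?_, ?_, ?_⟩
  · apply pr_continuous.comp
    have hc : ∀ ζ : Circle, (4 * max |(ζ : ℂ).re| |(ζ : ℂ).im|) ≠ 0 := fun ζ =>
      (mul_pos four_pos (mx_pos (circle_ne ζ))).ne'
    have hmx : Continuous fun ζ : Circle => 4 * max |(ζ : ℂ).re| |(ζ : ℂ).im| := by
      have h1 : Continuous fun ζ : Circle => (ζ : ℂ) := continuous_subtype_val
      exact continuous_const.mul ((Complex.continuous_re.comp h1).abs.max
        (Complex.continuous_im.comp h1).abs)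
    have h1 : Continuous fun ζ : Circle => (ζ : ℂ) := continuous_subtype_val
    unfold gam
    refine Continuous.add ?_ (Continuous.mul ?_ continuous_const)
    · exact Complex.continuous_ofReal.comp (continuous_const.add
        ((Complex.continuous_re.comp h1).div hmx hc))
    · exact Complex.continuous_ofReal.comp (continuous_const.add
        ((Complex.continuous_im.comp h1).div hmx hc))
  · intro ζ ξ h
    exact gam_inj (bR_inj (gam_mem (circle_ne ζ)) (gam_mem (circle_ne ξ)) h)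
  · ext x
    constructor
    · rintro ⟨ζ, rfl⟩
      exact ⟨_, gam_mem (circle_ne ζ), rfl⟩
    · rintro ⟨z, hz, rfl⟩
      obtain ⟨ζ, hζ⟩ := gam_surj hz
      exact ⟨ζ, by show pr (gam ζ) = pr z; rw [hζ]⟩

/-- open cells of the grid -/
def Q (j k : ℤ) : Set ℂ := {z | (j < 2 * cs z ∧ 2 * cs z < j + 1) ∧ (k < 2 * ct z ∧ 2 * ct z < k + 1)}

theorem Q_open (j k : ℤ) : IsOpen (Q j k) := by
  have h1 : Continuous fun z => 2 * cs z := continuous_const.mul cs_cont
  have h2 : Continuous fun z => 2 * ct z := continuous_const.mul ct_cont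
  exact ((isOpen_lt continuous_const h1).inter (isOpen_lt h1 continuous_const)).inter
    ((isOpen_lt continuous_const h2).inter (isOpen_lt h2 continuous_const))

theorem exists_Q {z : ℂ} (hz : z ∉ Gr) : ∃ j k, z ∈ Q j k := by
  refine ⟨⌊2 * cs z⌋, ⌊2 * ct z⌋, ⟨?_, Int.lt_floor_add_one _⟩, ?_, Int.lt_floor_add_one _⟩
  · refine lt_of_le_of_ne (Int.floor_le _) fun h => hz ⟨⌊2 * cs z⌋, Or.inl h.symm⟩
  · refine lt_of_le_of_ne (Int.floor_le _) fun h => hz ⟨⌊2 * ct z⌋, Or.inr h.symm⟩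

theorem int_eq {a b : ℤ} {x : ℝ} (h1 : a < x) (h2 : x < a + 1) (h3 : b < x) (h4 : x < b + 1) :
    a = b := by
  have e1 : (a : ℝ) < b + 1 := h1.trans h4
  have e2 : (b : ℝ) < a + 1 := h3.trans h2
  have e3 : a < b + 1 := by exact_mod_cast e1
  have e4 : b < a + 1 := by exact_mod_cast e2
  omega

/-- images of the cells -/
def O (n : ℕ) (j k : ℤ) : Set Sph := pr '' {z | lam ^ n * z ∈ Q j k}

theorem O_open (n : ℕ) (j k : ℤ) : IsOpen (O n j k) :=
  pr_isOpenMap _ ((Q_open j k).preimage (continuous_const.mul continuous_id))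

theorem lam_pow_mem {v : ℂ} (hv : v ∈ Lat) (n : ℕ) : lam ^ n * v ∈ Lat := by
  induction n with
  | zero => simpa using hv
  | succ n ih => rw [pow_succ', mul_assoc]; exact lam_mul_mem ih

theorem O_sub {n : ℕ} {j k j' k' : ℤ} (h : (O n j k ∩ O n j' k').Nonempty) :
    O n j k ⊆ O n j' k' := by
  obtain ⟨x, ⟨a, ha, rfl⟩, b, hb, hab⟩ := h
  obtain ⟨⟨a1, a2⟩, a3, a4⟩ := ha
  obtain ⟨⟨b1, b2⟩, b3, b4⟩ := hb
  rcases pr_eq_iff.1 hab.symm with h | h
  · obtain ⟨m, l, hm, hl⟩ := mem_Lat_iff.1 (lam_pow_mem h n)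
    rw [mul_sub, cs_sub] at hm
    rw [mul_sub, ct_sub] at hl
    have hj : j = j' + 2 * m := by
      refine int_eq a1 a2 ?_ ?_
      · push_cast; linarith
      · push_cast; linarith
    have hk : k = k' + 2 * l := by
      refine int_eq a3 a4 ?_ ?_
      · push_cast; linarith
      · push_cast; linarith
    rintro x ⟨c, ⟨⟨c1, c2⟩, c3, c4⟩, rfl⟩
    rw [hj] at c1 c2
    rw [hk] at c3 c4
    push_cast at c1 c2 c3 c4
    refine ⟨c - (a - b), ⟨⟨?_, ?_⟩, ?_, ?_⟩, ?_⟩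
    · rw [mul_sub, mul_sub, cs_sub, cs_sub]; linarith
    · rw [mul_sub, mul_sub, cs_sub, cs_sub]; linarith
    · rw [mul_sub, mul_sub, ct_sub, ct_sub]; linarith
    · rw [mul_sub, mul_sub, ct_sub, ct_sub]; linarith
    · rw [sub_eq_add_neg]
      exact pr_add c (Lat.neg_mem h)
  · obtain ⟨m, l, hm, hl⟩ := mem_Lat_iff.1 (lam_pow_mem h n)
    rw [mul_add, cs_add] at hm
    rw [mul_add, ct_add] at hl
    have hj : j = 2 * m - j' - 1 := by
      refine int_eq a1 a2 ?_ ?_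
      · push_cast; linarith
      · push_cast; linarith
    have hk : k = 2 * l - k' - 1 := by
      refine int_eq a3 a4 ?_ ?_
      · push_cast; linarith
      · push_cast; linarith
    rintro x ⟨c, ⟨⟨c1, c2⟩, c3, c4⟩, rfl⟩
    rw [hj] at c1 c2
    rw [hk] at c3 c4
    push_cast at c1 c2 c3 c4
    refine ⟨(a + b) - c, ⟨⟨?_, ?_⟩, ?_, ?_⟩, ?_⟩
    · rw [mul_sub, mul_add, cs_sub, cs_add]; linarith
    · rw [mul_sub, mul_add, cs_sub, cs_add]; linarith
    · rw [mul_sub, mul_add, ct_sub, ct_add]; linarith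
    · rw [mul_sub, mul_add, ct_sub, ct_add]; linarith
    · rw [sub_eq_neg_add, pr_add _ h, pr_neg]

theorem pre_sub {n : ℕ} {x : Sph} (hx : x ∈ F^[n] ⁻¹' CCᶜ) : ∃ j k, x ∈ O n j k := by
  obtain ⟨z, rfl⟩ := pr_surj x
  have h1 : pr (lam ^ n * z) ∉ CC := by
    rw [pr_lam_pow]; exact hx
  obtain ⟨j, k, h⟩ := exists_Q fun h => h1 (pr_mem_CC h)
  exact ⟨j, k, z, h, rfl⟩

theorem comp_sub {n : ℕ} {x : Sph} (hx : x ∈ F^[n] ⁻¹' CCᶜ) {j k : ℤ} (hjk : x ∈ O n j k) :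
    connectedComponentIn (F^[n] ⁻¹' CCᶜ) x ⊆ O n j k := by
  set V : Set Sph := ⋃₀ {S | ∃ j' k', S = O n j' k' ∧ ¬ (O n j k ∩ O n j' k').Nonempty} with hV
  have hVo : IsOpen V := by
    apply isOpen_sUnion
    rintro S ⟨j', k', rfl, -⟩
    exact O_open n j' k'
  have hdis : Disjoint (O n j k) V := by
    rw [Set.disjoint_left]
    rintro y hy ⟨S, ⟨j', k', rfl, hne⟩, hyS⟩
    exact hne ⟨y, hy, hyS⟩
  refine IsPreconnected.subset_left_of_subset_union (O_open n j k) hVo hdis ?_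
    ⟨x, mem_connectedComponentIn hx, hjk⟩ isPreconnected_connectedComponentIn
  intro y hy
  obtain ⟨j', k', hy'⟩ := pre_sub (connectedComponentIn_subset _ _ hy)
  by_cases hne : (O n j k ∩ O n j' k').Nonempty
  · left
    refine O_sub ?_ hy'
    rwa [Set.inter_comm]
  · right
    exact ⟨_, ⟨j', k', rfl, hne⟩, hy'⟩

theorem norm_le_coord (z : ℂ) : ‖z‖ ≤ |cs z| + |ct z| * ‖lam‖ := by
  nth_rewrite 1 [← coord z]
  refine (norm_add_le _ _).trans ?_
  rw [norm_mul, Complex.norm_real, Complex.norm_real, Real.norm_eq_abs, Real.norm_eq_abs]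

theorem Q_diam {j k : ℤ} {z w : ℂ} (hz : z ∈ Q j k) (hw : w ∈ Q j k) : ‖z - w‖ ≤ 1 + ‖lam‖ := by
  obtain ⟨⟨a1, a2⟩, a3, a4⟩ := hz
  obtain ⟨⟨b1, b2⟩, b3, b4⟩ := hw
  refine (norm_le_coord _).trans ?_
  rw [cs_sub, ct_sub]
  have h1 : |cs z - cs w| ≤ 1 := abs_le.2 ⟨by linarith, by linarith⟩
  have h2 : |ct z - ct w| ≤ 1 := abs_le.2 ⟨by linarith, by linarith⟩
  have h3 := mul_le_mul_of_nonneg_right h2 (norm_nonneg lam)
  linarith

/-- a Lebesgue number -/
theorem lebesgue (𝒰 : Set (Set Sph)) (ho : ∀ U ∈ 𝒰, IsOpen U) (hc : ⋃₀ 𝒰 = univ) :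
    ∃ δ > 0, ∀ z : ℂ, ∃ U ∈ 𝒰, ∀ w, dist w z < δ → pr w ∈ U := by
  obtain ⟨δ, hδ, h⟩ := lebesgue_number_lemma_of_metric_sUnion KK_compact
    (c := (fun U => pr ⁻¹' U) '' 𝒰) (by
      rintro _ ⟨U, hU, rfl⟩
      exact (ho U hU).preimage pr_continuous) (by
      intro z _
      have h1 : pr z ∈ ⋃₀ 𝒰 := by rw [hc]; trivial
      obtain ⟨U, hU, hz⟩ := h1
      exact ⟨_, ⟨U, hU, rfl⟩, hz⟩)
  refine ⟨δ, hδ, fun z => ?_⟩
  obtain ⟨v, hv, hz⟩ := exists_KK z
  obtain ⟨_, ⟨U, hU, rfl⟩, hb⟩ := h _ hz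
  refine ⟨U, hU, fun w hw => ?_⟩
  have h1 : w + v ∈ Metric.ball (z + v) δ := by
    rw [Metric.mem_ball, dist_add_right]
    exact hw
  have h2 : pr (w + v) ∈ U := hb h1
  rwa [pr_add w hv] at h2

theorem mesh : MeshTendsToZero F CC := by
  intro 𝒰 ho hc
  obtain ⟨δ, hδ, hL⟩ := lebesgue 𝒰 ho hc
  have hlim := (tendsto_pow_atTop_atTop_of_one_lt one_lt_norm_lam).eventually_gt_atTop
    ((1 + ‖lam‖) / δ)
  obtain ⟨N, hN⟩ := eventually_atTop.1 hlim
  refine ⟨N, fun n hn x hx => ?_⟩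
  obtain ⟨j, k, z, hz, rfl⟩ := pre_sub hx
  obtain ⟨U, hU, h⟩ := hL z
  refine ⟨U, hU, (comp_sub hx ⟨z, hz, rfl⟩).trans ?_⟩
  rintro _ ⟨w, hw, rfl⟩
  apply h
  have h1 := Q_diam hw hz
  rw [← mul_sub, norm_mul, norm_pow] at h1
  have h2 := hN n hn
  have h3 : 0 < ‖lam‖ ^ n := pow_pos (by linarith [one_lt_norm_lam]) n
  rw [div_lt_iff₀ hδ] at h2
  rw [dist_eq_norm]
  by_contra hcon
  push Not at hcon
  have h4 := mul_le_mul_of_nonneg_left hcon h3.le
  linarith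

theorem F_expanding : IsExpanding F := ⟨CC, CC_jordan, post_subset, mesh⟩

end Pool.Agent.H208.CM
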