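import Pool.Agent.H208.CM.Lat

set_option autoImplicit false

/-!
# The measure theoretic part of the argument
-/

noncomputable section

namespace Pool.Agent.H208.CM

open MeasureTheory Set Pointwise

instance : MeasurableVAdd Lat ℂ := (inferInstance : MeasurableVAdd Lat.toAddSubgroup ℂ)
instance : VAddInvariantMeasure Lat ℂ (volume : Measure ℂ) :=
  (inferInstance : VAddInvariantMeasure Lat.toAddSubgroup ℂ (volume : Measure ℂ))

theorem vol_mul {c : ℂ} (hc : c ≠ 0) (s : Set ℂ) :
    volume ((fun z => c * z) ⁻¹' s) = ENNReal.ofReal (Complex.normSq c)⁻¹ * volume s := by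
  have hdet : LinearMap.det (LinearMap.mul ℝ ℂ c) = Complex.normSq c := by
    have : LinearMap.mul ℝ ℂ c = Algebra.lmul ℝ ℂ c := rfl
    rw [this, ← Algebra.norm_apply, Algebra.norm_complex_eq]
    rfl
  have hpos : 0 < Complex.normSq c := Complex.normSq_pos.2 hc
  have h := Measure.addHaar_preimage_linearMap (volume : Measure ℂ)
    (f := LinearMap.mul ℝ ℂ c) (by rw [hdet]; exact hpos.ne') s
  rw [hdet, abs_of_pos (inv_pos.2 hpos)] at h
  exact h

theorem vol_aff {a : ℂ} (ha : a ≠ 0) (b : ℂ) (s : Set ℂ) :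
    volume {z | a * z + b ∈ s} = ENNReal.ofReal (Complex.normSq a)⁻¹ * volume s := by
  have h1 : {z | a * z + b ∈ s} = (fun z => a * z) ⁻¹' ((fun z => z + b) ⁻¹' s) := rfl
  rw [h1, vol_mul ha, measure_preimage_add_right]

theorem ae_aff {p : ℂ → Prop} (h : ∀ᵐ z, p z) {a : ℂ} (ha : a ≠ 0) (b : ℂ) :
    ∀ᵐ z, p (a * z + b) := by
  rw [ae_iff] at h ⊢
  have h1 := vol_aff ha b {z | ¬ p z}
  rw [h, mul_zero] at h1
  exact h1

theorem exists_D : ∃ D : Set ℂ, IsAddFundamentalDomain Lat D volume ∧ MeasurableSet D ∧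
    Bornology.IsBounded D ∧ volume D ≠ 0 ∧ volume D ≠ ⊤ := by
  let b := Module.Free.chooseBasis ℤ Lat
  refine ⟨ZSpan.fundamentalDomain (b.ofZLatticeBasis ℝ), ZLattice.isAddFundamentalDomain b _,
    ZSpan.fundamentalDomain_measurableSet _, ZSpan.fundamentalDomain_isBounded _,
    ZSpan.measure_fundamentalDomain_ne_zero _,
    (ZSpan.fundamentalDomain_isBounded _).measure_lt_top.ne⟩

section
variable {V D : Set ℂ}

theorem two_vol_le (hVo : IsOpen V) (h1 : ∀ x ∈ V, ∀ v ∈ Lat, x + v ∈ V → v = 0)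
    (h2 : ∀ x ∈ V, ∀ v ∈ Lat, -x + v ∉ V) (hD : IsAddFundamentalDomain Lat D volume) :
    volume V + volume V ≤ volume D := by
  set S : Set ℂ := V ∪ (fun z => -z) ⁻¹' V with hS
  have hm : MeasurableSet ((fun z : ℂ => -z) ⁻¹' V) := (hVo.preimage continuous_neg).measurableSet
  have hdis : Disjoint V ((fun z : ℂ => -z) ⁻¹' V) := by
    rw [Set.disjoint_left]
    intro x hx hx2
    exact h2 x hx 0 Lat.zero_mem (by simpa using hx2)
  have hvol : volume S = volume V + volume V := by
    rw [hS, measure_union hdis hm]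
    congr 1
    exact Measure.measure_preimage_neg volume V
  rw [← hvol]
  by_contra hcon
  push Not at hcon
  obtain ⟨x, y, hxy, hnd⟩ := exists_pair_mem_lattice_not_disjoint_vadd hD
    (hVo.measurableSet.union hm).nullMeasurableSet hcon
  rw [Set.not_disjoint_iff] at hnd
  obtain ⟨z, ⟨p, hp, hpz⟩, q, hq, hqz⟩ := hnd
  have e1 : (x : ℂ) + p = z := hpz
  have e2 : (y : ℂ) + q = z := hqz
  have hxyL : (x : ℂ) - y ∈ Lat := Lat.sub_mem x.2 y.2
  have hyxL : (y : ℂ) - x ∈ Lat := Lat.sub_mem y.2 x.2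
  rcases hp with hp | hp
  · rcases hq with hq | hq
    · apply hxy
      apply Subtype.ext
      apply sub_eq_zero.1
      apply h1 p hp _ hxyL
      have : p + ((x : ℂ) - y) = q := by linear_combination e1 - e2
      rw [this]; exact hq
    · have hq' : -q ∈ V := hq
      refine h2 (-q) hq' _ hyxL ?_
      have : - -q + ((y : ℂ) - x) = p := by linear_combination e2 - e1
      rw [this]; exact hp
  · have hp' : -p ∈ V := hp
    rcases hq with hq | hq
    · refine h2 (-p) hp' _ hxyL ?_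
      have : - -p + ((x : ℂ) - y) = q := by linear_combination e1 - e2
      rw [this]; exact hq
    · have hq' : -q ∈ V := hq
      apply hxy
      apply Subtype.ext
      symm
      apply sub_eq_zero.1
      apply h1 (-p) hp' _ hyxL
      have : -p + ((y : ℂ) - x) = -q := by linear_combination e2 - e1
      rw [this]; exact hq'

theorem pow_mem {M : ℂ} (hM : M ∈ Lat) (n : ℕ) : M ^ n ∈ Lat := by
  induction n with
  | zero => rw [pow_zero]; exact one_mem
  | succ n ih => rw [pow_succ]; exact mul_mem' ih hM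

theorem it_ae {M a w : ℂ} (hM : M ∈ Lat) (hM0 : M ≠ 0)
    (hae : ∀ᵐ z, z ∈ V → (M * z + -a ∈ V ∨ M * z + (-a - w) ∈ V)) (n : ℕ) :
    ∃ c : ℂ, ∀ᵐ z, z ∈ V → ∃ l ∈ Lat, M ^ n * z - c - w * l ∈ V := by
  induction n with
  | zero =>
    refine ⟨0, Filter.Eventually.of_forall fun z hz => ⟨0, Lat.zero_mem, ?_⟩⟩
    simpa using hz
  | succ n ih =>
    obtain ⟨c, hc⟩ := ih
    refine ⟨M ^ n * a + c, ?_⟩
    filter_upwards [hae, ae_aff hc hM0 (-a), ae_aff hc hM0 (-a - w)] with z h1 h2 h3 hz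
    rcases h1 hz with h | h
    · obtain ⟨l, hl, hlV⟩ := h2 h
      refine ⟨l, hl, ?_⟩
      convert hlV using 1
      ring
    · obtain ⟨l, hl, hlV⟩ := h3 h
      refine ⟨l + M ^ n, Lat.add_mem hl (pow_mem hM n), ?_⟩
      convert hlV using 1
      ring

/-- the covering lemma -/
theorem cover (hVo : IsOpen V) (hne : V.Nonempty) (hD : IsAddFundamentalDomain Lat D volume)
    (hDb : Bornology.IsBounded D) {M a w : ℂ} (hM : M ∈ Lat) (hM1 : 1 < ‖M‖) (hw : w ≠ 0)
    (hae : ∀ᵐ z, z ∈ V → (M * z + -a ∈ V ∨ M * z + (-a - w) ∈ V)) :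
    volume D ≤ ENNReal.ofReal (Complex.normSq w)⁻¹ * volume V := by
  have hM0 : M ≠ 0 := by
    rintro rfl
    rw [norm_zero] at hM1
    linarith
  obtain ⟨x0, hx0⟩ := hne
  obtain ⟨r, hr, hball⟩ := Metric.isOpen_iff.1 hVo x0 hx0
  obtain ⟨R, hR⟩ := hDb.exists_norm_le
  obtain ⟨n, hn⟩ := ((tendsto_pow_atTop_atTop_of_one_lt hM1).eventually_gt_atTop
    (‖w‖ * R / r)).exists
  obtain ⟨c, hc⟩ := it_ae (V := V) hM hM0 hae n
  have hMn : M ^ n ≠ 0 := pow_ne_zero n hM0
  have hwM : w / M ^ n ≠ 0 := div_ne_zero hw hMn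
  have h1 := ae_aff hc hwM x0
  set b : ℂ := M ^ n * x0 - c with hb
  set E : Set ℂ := {y | w * y + b ∈ V} with hE
  have hcov : ∀ᵐ d, d ∈ D → ∃ l : Lat, d ∈ l +ᵥ E := by
    filter_upwards [h1] with d hd hdD
    have h2 : w / M ^ n * d + x0 ∈ V := by
      apply hball
      rw [Metric.mem_ball, dist_eq_norm, add_sub_cancel_right, norm_mul, norm_div, norm_pow]
      have h3 := hR d hdD
      have h4 : 0 < ‖M‖ ^ n := pow_pos (by linarith) n
      rw [div_lt_iff₀ hr] at hn
      rw [div_mul_eq_mul_div, div_lt_iff₀ h4]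
      calc ‖w‖ * ‖d‖ ≤ ‖w‖ * R := mul_le_mul_of_nonneg_left h3 (norm_nonneg _)
        _ < r * ‖M‖ ^ n := by linarith
    obtain ⟨l, hl, hlV⟩ := hd h2
    refine ⟨⟨l, hl⟩, d - l, ?_, ?_⟩
    · show w * (d - l) + b ∈ V
      convert hlV using 1
      rw [hb]
      field_simp
      ring
    · show l + (d - l) = d
      ring
  have hEv : volume E = ENNReal.ofReal (Complex.normSq w)⁻¹ * volume V := vol_aff hw b V
  rw [← hEv, hD.measure_eq_tsum E]
  calc volume D ≤ volume (⋃ g : Lat, (g +ᵥ E) ∩ D) := by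
        apply measure_mono_ae
        filter_upwards [hcov] with d hd hdD
        obtain ⟨l, hl⟩ := hd hdD
        exact mem_iUnion.2 ⟨l, hl, hdD⟩
    _ ≤ _ := measure_iUnion_le _

end

/-- the contradiction -/
theorem meas_false {V : Set ℂ} {ε₀ ε₁ κ₀ κ₁ : ℂ} (hVo : IsOpen V) (hne : V.Nonempty)
    (h1 : ∀ x ∈ V, ∀ v ∈ Lat, x + v ∈ V → v = 0) (h2 : ∀ x ∈ V, ∀ v ∈ Lat, -x + v ∉ V)
    (he0 : ε₀ = 1 ∨ ε₀ = -1) (he1 : ε₁ = 1 ∨ ε₁ = -1) (hk0 : lam⁻¹ * κ₀ ∈ Lat) (hk1 : κ₁ ∈ Lat)
    (hk1' : lam⁻¹ * κ₁ ∉ Lat) (hA0 : ∀ x ∈ V, lam⁻¹ * (ε₀ * x + κ₀) ∈ V)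
    (hA1 : ∀ x ∈ V, lam⁻¹ * (ε₁ * x + κ₁) ∈ V) : False := by
  obtain ⟨D, hD, hDm, hDb, hD0, hDt⟩ := exists_D
  have h2V := two_vol_le hVo h1 h2 hD
  have hV0 : volume V ≠ 0 := (hVo.measure_pos volume hne).ne'
  have hVt : volume V ≠ ⊤ := by
    intro h
    rw [h, top_add] at h2V
    exact hDt (top_le_iff.1 h2V)
  have hk0L : κ₀ ∈ Lat := by
    have := lam_mul_mem hk0
    rwa [mul_inv_cancel_left₀ lam_ne] at this
  have sq0 : ε₀ * ε₀ = 1 := by rcases he0 with rfl | rfl <;> norm_num
  have sq1 : ε₁ * ε₁ = 1 := by rcases he1 with rfl | rfl <;> norm_num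
  have he0n : ε₀ ≠ 0 := left_ne_zero_of_mul_eq_one sq0
  have he1n : ε₁ ≠ 0 := left_ne_zero_of_mul_eq_one sq1
  have hns : ∀ ε : ℂ, (ε = 1 ∨ ε = -1) → Complex.normSq (ε * lam) = 2 := by
    intro ε hε
    rw [map_mul, normSq_lam]
    rcases hε with rfl | rfl <;> simp
  -- the two pieces
  set A0 : Set ℂ := {z | (ε₀ * lam) * z + -(ε₀ * κ₀) ∈ V} with hA0d
  set A1 : Set ℂ := {z | (ε₁ * lam) * z + -(ε₁ * κ₁) ∈ V} with hA1d
  have hA0o : IsOpen A0 := hVo.preimage (by fun_prop)
  have hA1o : IsOpen A1 := hVo.preimage (by fun_prop)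
  have hA0s : A0 ⊆ V := by
    intro z hz
    have := hA0 _ hz
    convert this using 1
    have e : ε₀ * (ε₀ * lam * z + -(ε₀ * κ₀)) + κ₀ = lam * z := by
      linear_combination (lam * z - κ₀) * sq0
    rw [e, inv_mul_cancel_left₀ lam_ne]
  have hA1s : A1 ⊆ V := by
    intro z hz
    have := hA1 _ hz
    convert this using 1
    have e : ε₁ * (ε₁ * lam * z + -(ε₁ * κ₁)) + κ₁ = lam * z := by
      linear_combination (lam * z - κ₁) * sq1
    rw [e, inv_mul_cancel_left₀ lam_ne]
  have hAd : Disjoint A0 A1 := by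
    rw [Set.disjoint_left]
    intro z hz0 hz1
    have hz0' : ε₀ * lam * z + -(ε₀ * κ₀) ∈ V := hz0
    have hz1' : ε₁ * lam * z + -(ε₁ * κ₁) ∈ V := hz1
    have hL : ε₀ * (κ₀ - κ₁) ∈ Lat := by
      rcases he0 with rfl | rfl
      · rw [one_mul]; exact Lat.sub_mem hk0L hk1
      · rw [neg_one_mul]; exact Lat.neg_mem (Lat.sub_mem hk0L hk1)
    by_cases hee : ε₁ = ε₀
    · rw [hee] at hz1'
      have h3 := h1 _ hz0' _ hL (by
        convert hz1' using 1
        ring)
      have h4 : κ₀ - κ₁ = 0 := (mul_eq_zero.1 h3).resolve_left he0n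
      rw [← sub_eq_zero.1 h4] at hk1'
      exact hk1' hk0
    · have hee' : ε₁ = -ε₀ := by
        rcases he0 with rfl | rfl <;> rcases he1 with rfl | rfl
        · exact absurd rfl hee
        · rfl
        · norm_num
        · exact absurd rfl hee
      rw [hee'] at hz1'
      refine h2 _ hz0' _ (Lat.neg_mem hL) ?_
      convert hz1' using 1
      ring
  have hvA : ∀ ε κ : ℂ, (ε = 1 ∨ ε = -1) →
      volume {z | (ε * lam) * z + -(ε * κ) ∈ V} = ENNReal.ofReal 2⁻¹ * volume V := by
    intro ε κ hε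
    have hne : ε * lam ≠ 0 := by
      refine mul_ne_zero ?_ lam_ne
      rcases hε with rfl | rfl <;> norm_num
    rw [vol_aff hne, hns ε hε]
  have hhalf : ENNReal.ofReal 2⁻¹ * volume V + ENNReal.ofReal 2⁻¹ * volume V = volume V := by
    rw [← add_mul, ← ENNReal.ofReal_add (by norm_num) (by norm_num)]
    norm_num
  have hnull : volume (V \ (A0 ∪ A1)) = 0 := by
    have h3 : volume (A0 ∪ A1) = volume V := by
      rw [measure_union hAd hA1o.measurableSet, hvA ε₀ κ₀ he0, hvA ε₁ κ₁ he1, hhalf]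
    rw [measure_sdiff (union_subset hA0s hA1s) (hA0o.union hA1o).measurableSet.nullMeasurableSet
      (by rw [h3]; exact hVt), h3, tsub_self]
  have hae : ∀ᵐ z, z ∈ V → (ε₀ * lam * z + -(ε₀ * κ₀) ∈ V ∨ ε₁ * lam * z + -(ε₁ * κ₁) ∈ V) := by
    rw [ae_iff]
    refine measure_mono_null ?_ hnull
    intro z hz
    simp only [mem_ofPred_eq, Classical.not_imp, not_or] at hz
    exact ⟨hz.1, fun h => h.elim hz.2.1 hz.2.2⟩
  -- the general contradiction
  have hML : ∀ ε : ℂ, (ε = 1 ∨ ε = -1) → ε * lam ∈ Lat := by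
    rintro ε (rfl | rfl)
    · rw [one_mul]; exact lam_mem
    · rw [neg_one_mul]; exact Lat.neg_mem lam_mem
  have fin : ∀ a w : ℂ, (w = 0 ∨ 1 ≤ Complex.normSq w) →
      (∀ᵐ z, z ∈ V → (ε₀ * lam * z + -a ∈ V ∨ ε₀ * lam * z + (-a - w) ∈ V)) → False := by
    intro a w hw hae'
    have hne' : ε₀ * lam ≠ 0 := mul_ne_zero he0n lam_ne
    by_cases hw0 : w = 0
    · subst hw0
      have h3 : volume V ≤ volume {z | ε₀ * lam * z + -a ∈ V} := by
        apply measure_mono_ae
        filter_upwards [hae'] with z hz hzV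
        rcases hz hzV with h | h
        · exact h
        · rwa [sub_zero] at h
      rw [vol_aff hne', hns ε₀ he0] at h3
      have h4 : ENNReal.ofReal 2⁻¹ * volume V < volume V := by
        conv_rhs => rw [← one_mul (volume V)]
        apply ENNReal.mul_lt_mul_left hV0 hVt
        rw [← ENNReal.ofReal_one]
        exact (ENNReal.ofReal_lt_ofReal_iff one_pos).2 (by norm_num)
      exact absurd h3 (not_le.2 h4)
    · have hw1 := hw.resolve_left hw0
      have hM1 : 1 < ‖ε₀ * lam‖ := by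
        have := hns ε₀ he0
        rw [Complex.normSq_eq_norm_sq] at this
        nlinarith [norm_nonneg (ε₀ * lam)]
      have h3 := cover hVo hne hD hDb (hML ε₀ he0) hM1 hw0 hae'
      have h4 : ENNReal.ofReal (Complex.normSq w)⁻¹ * volume V ≤ volume V := by
        conv_rhs => rw [← one_mul (volume V)]
        apply mul_le_mul_left
        rw [← ENNReal.ofReal_one]
        exact ENNReal.ofReal_le_ofReal (inv_le_one_of_one_le₀ hw1)
      have h5 : volume V + volume V ≤ volume V + 0 := by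
        rw [add_zero]
        exact (h2V.trans h3).trans h4
      have h6 := (ENNReal.add_le_add_iff_left hVt).1 h5
      exact hV0 (le_antisymm h6 bot_le)
  by_cases hee : ε₁ = ε₀
  · -- same signs
    subst hee
    refine fin (ε₁ * κ₀) (ε₁ * (κ₁ - κ₀)) ?_ ?_
    · by_cases hz : ε₁ * (κ₁ - κ₀) = 0
      · exact Or.inl hz
      · right
        refine one_le_normSq ?_ hz
        rcases he0 with rfl | rfl
        · rw [one_mul]; exact Lat.sub_mem hk1 hk0L
        · rw [neg_one_mul]; exact Lat.neg_mem (Lat.sub_mem hk1 hk0L)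
    · filter_upwards [hae] with z hz hzV
      rcases hz hzV with h | h
      · exact Or.inl h
      · right
        convert h using 1
        ring
  · -- opposite signs
    have hee' : ε₁ = -ε₀ := by
      rcases he0 with rfl | rfl <;> rcases he1 with rfl | rfl
      · exact absurd rfl hee
      · rfl
      · norm_num
      · exact absurd rfl hee
    subst hee'
    set M : ℂ := ε₀ * lam with hM
    have hMne : M ≠ 0 := mul_ne_zero he0n lam_ne
    set a : ℂ := ε₀ * κ₀ with ha
    set b : ℂ := ε₀ * κ₁ with hb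
    set σ : ℂ := M⁻¹ * (a + b) with hσ
    have hMσ : M * σ = a + b := by rw [hσ, mul_inv_cancel_left₀ hMne]
    -- symmetry
    have hMinv : M⁻¹ = ε₀ * lam⁻¹ := by
      rw [hM, mul_inv]
      congr 1
      exact inv_eq_of_mul_eq_one_left sq0
    have hsym : ∀ᵐ z, z ∈ V → σ - z ∈ V := by
      filter_upwards [hae] with z hz hzV
      rcases hz hzV with h | h
      · have h3 := hA1 _ h
        convert h3 using 1
        rw [hσ, hMinv, ha, hb, hM]
        have := lam_ne
        field_simp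
        linear_combination (κ₁ + lam * z) * sq0
      · have h3 := hA0 _ h
        convert h3 using 1
        rw [hσ, hMinv, ha, hb]
        have := lam_ne
        field_simp
        linear_combination (κ₀ + lam * z) * sq0
    refine fin a (b - σ - a) ?_ ?_
    · -- the arithmetic
      obtain ⟨μ, hμL, hμ⟩ : ∃ μ ∈ Lat, M * (b - σ - a) = (1 - lam) * μ := by
        have haL : a ∈ Lat := by
          rcases he0 with h | h
          · rw [ha, h, one_mul]; exact hk0L
          · rw [ha, h, neg_one_mul]; exact Lat.neg_mem hk0L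
        have hbL : b ∈ Lat := by
          rcases he0 with h | h
          · rw [hb, h, one_mul]; exact hk1
          · rw [hb, h, neg_one_mul]; exact Lat.neg_mem hk1
        rcases he0 with h | h
        · refine ⟨(a - b) - lam * a, Lat.sub_mem (Lat.sub_mem haL hbL) (lam_mul_mem haL), ?_⟩
          have hM' : M = lam := by rw [hM, h, one_mul]
          rw [mul_sub, mul_sub, hMσ, hM']
          linear_combination (-a) * lam_sq
        · refine ⟨((b - a) - lam * (b - a)) - lam * a, Lat.sub_mem (Lat.sub_mem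
            (Lat.sub_mem hbL haL) (lam_mul_mem (Lat.sub_mem hbL haL))) (lam_mul_mem haL), ?_⟩
          have hM' : M = -lam := by rw [hM, h, neg_one_mul]
          rw [mul_sub, mul_sub, hMσ, hM']
          linear_combination (-b) * lam_sq
      by_cases hμ0 : μ = 0
      · left
        rw [hμ0, mul_zero] at hμ
        exact (mul_eq_zero.1 hμ).resolve_left hMne
      · right
        have h3 := congrArg Complex.normSq hμ
        have hnM : Complex.normSq M = 2 := hns ε₀ he0
        rw [Complex.normSq_mul M, Complex.normSq_mul (1 - lam), hnM] at h3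
        have h4 : Complex.normSq (1 - lam) = 2 := by
          have := normSq_int 1 (-1)
          have e : (1 : ℂ) - lam = ((1 : ℤ) : ℂ) + ((-1 : ℤ) : ℂ) * lam := by push_cast; ring
          rw [e, this]
          norm_num
        rw [h4] at h3
        have h5 := one_le_normSq hμL hμ0
        have h6 : Complex.normSq (b - σ - a) = Complex.normSq μ := by linarith
        rw [h6]
        exact h5
    · have h3 := ae_aff hsym (neg_ne_zero.2 hMne) b
      filter_upwards [hae, h3] with z hz hz3 hzV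
      rcases hz hzV with h | h
      · exact Or.inl h
      · right
        have h4 : -M * z + b ∈ V := by
          convert h using 1
          rw [hM, hb]
          ring
        have h5 := hz3 h4
        convert h5 using 1
        ring

end Pool.Agent.H208.CM
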