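import Pool.Agent.H208.CM.Comp
import Pool.Agent.H208.CM.Meas

set_option autoImplicit false

/-!
# The Lattès map has no invariant tree
-/

noncomputable section

namespace Pool.Agent.H208.CM

open Filter Topology Set OnePoint Pool.Agent.H208.Thu

theorem no_continuum {T : Set Sph} (hc : IsClosed T) (hp : IsPreconnected T)
    (hcc : IsPreconnected Tᶜ) (hne : Tᶜ.Nonempty) (hpost : post F ⊆ T) (hinv : F '' T ⊆ T) :
    False := by
  rw [post_eq] at hpost
  have h : ICont T :=
    { conn := hp
      closed := hc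
      inf := hpost (Or.inl rfl)
      zero := hpost (Or.inr (Or.inl rfl))
      u := hpost (Or.inr (Or.inr (Or.inl rfl)))
      cconn := hcc
      inv := fun x hx => hinv ⟨x, hx, rfl⟩
      ne := hne }
  obtain ⟨V, e0, e1, k0, k1, a1, a2, a3, a4, a5, a6, a7, a8, a9, a10, a11⟩ := data h
  exact meas_false a1 a2 a3 a4 a5 a6 a7 a8 a9 a10 a11

/-- a continuous real function on the circle is not injective -/
theorem circle_not_inj (h : Circle → ℝ) (hc : Continuous h) : ¬ Function.Injective h := by
  intro hinj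
  have hg : Continuous fun ζ : Circle => h ζ - h (-ζ) := hc.sub (hc.comp continuous_neg)
  have hneg : ∀ ζ : Circle, ζ ≠ -ζ := by
    intro ζ hζ
    have h1 : (ζ : ℂ) = -(ζ : ℂ) := congrArg (fun x : Circle => (x : ℂ)) hζ
    have h2 : (ζ : ℂ) = 0 := by linear_combination h1 / 2
    exact circle_ne ζ h2
  have h0 : ∃ ζ : Circle, h ζ - h (-ζ) = 0 := by
    have hconn : IsPreconnected (univ : Set Circle) := isPreconnected_univ
    rcases le_total (h 1 - h (-1)) 0 with h1 | h1
    · have h2 : (0 : ℝ) ∈ Icc (h 1 - h (-1)) (h (-1) - h (- -1)) :=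
        ⟨h1, by rw [neg_neg]; linarith⟩
      obtain ⟨ζ, -, hζ⟩ := hconn.intermediate_value (mem_univ 1) (mem_univ (-1))
        hg.continuousOn h2
      exact ⟨ζ, hζ⟩
    · have h2 : (0 : ℝ) ∈ Icc (h (-1) - h (- -1)) (h 1 - h (-1)) :=
        ⟨by rw [neg_neg]; linarith, h1⟩
      obtain ⟨ζ, -, hζ⟩ := hconn.intermediate_value (mem_univ (-1)) (mem_univ 1)
        hg.continuousOn h2
      exact ⟨ζ, hζ⟩
  obtain ⟨ζ, hζ⟩ := h0
  exact hneg ζ (hinj (sub_eq_zero.1 hζ))

/-- arcs have empty interior -/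
theorem arc_interior {γ : unitInterval → Sph} (hγ : Continuous γ) (hinj : Function.Injective γ) :
    interior (range γ) = ∅ := by
  by_contra hne
  obtain ⟨x, hx⟩ := nonempty_iff_ne_empty.2 hne
  -- a point of the plane in the interior
  have hopen : IsOpen ((↑) ⁻¹' interior (range γ) : Set ℂ) :=
    isOpen_interior.preimage OnePoint.continuous_coe
  have hdense : DenseRange ((↑) : ℂ → Sph) := OnePoint.denseRange_coe
  obtain ⟨c, hc⟩ := hdense.exists_mem_open isOpen_interior ⟨x, hx⟩
  obtain ⟨r, hr, hball⟩ := Metric.isOpen_iff.1 hopen c hc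
  have hmem : ∀ ζ : Circle, (((c + (r / 2 : ℝ) * (ζ : ℂ) : ℂ)) : Sph) ∈ range γ := by
    intro ζ
    apply interior_subset
    apply hball
    rw [Metric.mem_ball, dist_eq_norm, add_sub_cancel_left, norm_mul, Circle.norm_coe, mul_one,
      Complex.norm_real, Real.norm_eq_abs, abs_of_pos (by positivity)]
    linarith
  choose h hh using hmem
  have hemb : IsEmbedding γ := (hγ.isClosedEmbedding hinj).isEmbedding
  have hcont : Continuous h := by
    rw [hemb.continuous_iff]
    have : γ ∘ h = fun ζ : Circle => (((c + (r / 2 : ℝ) * (ζ : ℂ) : ℂ)) : Sph) := funext hh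
    rw [this]
    apply OnePoint.continuous_coe.comp
    exact continuous_const.add (continuous_const.mul continuous_subtype_val)
  refine circle_not_inj (fun ζ => (h ζ : ℝ)) (continuous_subtype_val.comp hcont) ?_
  intro ζ ξ he
  have h1 : h ζ = h ξ := Subtype.ext he
  have h2 := hh ζ
  rw [h1, hh ξ, OnePoint.coe_eq_coe, add_right_inj] at h2
  have h3 : (((r / 2 : ℝ)) : ℂ) ≠ 0 := by
    rw [Complex.ofReal_ne_zero]
    positivity
  exact (Circle.ext (mul_left_cancel₀ h3 h2)).symm

theorem arcs_ne_univ {n : ℕ} (γ : Fin n → unitInterval → Sph) (hγ : ∀ i, Continuous (γ i))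
    (hinj : ∀ i, Function.Injective (γ i)) : (⋃ i, range (γ i)) ≠ univ := by
  intro h
  obtain ⟨i, hi⟩ := nonempty_interior_of_iUnion_of_closed
    (fun i => (isCompact_range (hγ i)).isClosed) h
  rw [arc_interior (hγ i) (hinj i)] at hi
  exact Set.not_nonempty_empty hi

end Pool.Agent.H208.CM
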