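import Pool.Agent.H208.CM.Pi

set_option autoImplicit false

/-!
# The Lattès map is a Thurston map
-/

noncomputable section

namespace Pool.Agent.H208.CM

open Filter Topology Set OnePoint Pool.Agent.H208.Thu

/-- `1 + λ` -/
def uu : ℂ := 1 + lam

theorem lam_sq_uu : lam ^ 2 * uu = -4 := by
  unfold uu
  linear_combination (lam + 2) * lam_sq

theorem uu_ne : uu ≠ 0 := by
  intro h
  have := lam_sq_uu
  rw [h] at this
  norm_num at this

theorem F_one : F ((1 : ℂ) : Sph) = ((0 : ℂ) : Sph) := by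
  rw [F_coe one_ne_zero]
  simp

theorem F_neg_one : F ((-1 : ℂ) : Sph) = (uu : Sph) := by
  rw [F_coe (by norm_num), OnePoint.coe_eq_coe]
  have h1 := lam_ne
  have h2 := lam_sq_uu
  field_simp
  linear_combination -h2

theorem F_uu : F (uu : Sph) = ((uu⁻¹ : ℂ) : Sph) := by
  rw [F_coe uu_ne, OnePoint.coe_eq_coe]
  have h1 := lam_ne
  have h2 := uu_ne
  have h3 : uu - 1 = lam := by unfold uu; ring
  rw [h3]
  field_simp

theorem F_uu_inv : F ((uu⁻¹ : ℂ) : Sph) = ((uu⁻¹ : ℂ) : Sph) := by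
  rw [F_coe (inv_ne_zero uu_ne), OnePoint.coe_eq_coe]
  have h1 := lam_ne
  have h2 := uu_ne
  have h3 : uu - 1 = lam := by unfold uu; ring
  field_simp
  linear_combination (uu - 1 + lam) * h3

theorem F_inv (x : Sph) : F (Thu.inv x) = F x := by
  induction x using OnePoint.rec with
  | infty => rw [inv_infty, F_zero, F_infty]
  | coe z =>
    by_cases hz : z = 0
    · subst hz
      rw [inv_zero, F_zero, F_infty]
    · rw [inv_coe_ne hz, F_coe hz, F_coe (inv_ne_zero hz), OnePoint.coe_eq_coe]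
      have h1 := lam_ne
      field_simp
      ring

/-- the map is continuous -/
theorem F_continuous : Continuous F := by
  rw [continuous_def]
  intro U hU
  apply pr_open_of
  have h1 : pr ⁻¹' (F ⁻¹' U) = (fun z => lam * z) ⁻¹' (pr ⁻¹' U) := by
    ext z
    simp only [mem_preimage, pr_lam]
  rw [h1]
  exact (hU.preimage pr_continuous).preimage (continuous_const.mul continuous_id)

theorem ld_gen {d : ℕ} {i j : Bool} {p : Sph} (hp : p ∈ dom i) (hq : F p ∈ dom j) {Φ : ℂ → ℂ}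
    (hΦ : AnalyticAt ℂ Φ (ch i p)) (hd : deriv Φ (ch i p) ≠ 0) (h0 : Φ (ch i p) = 0)
    (h : ∀ᶠ x in 𝓝 p, ch j (F x) - ch j (F p) = Φ (ch i x) ^ d) : LocalDegree F p d := by
  have hΨ : AnalyticAt ℂ (fun z : ℂ => z - ch j (F p)) (ch j (F p)) :=
    analyticAt_id.sub analyticAt_const
  have hΨ' : deriv (fun z : ℂ => z - ch j (F p)) (ch j (F p)) ≠ 0 := by
    rw [((hasDerivAt_id _).sub_const _).deriv]
    exact one_ne_zero
  obtain ⟨ψ, hψ1, hψ2, hψ3, hψ4⟩ := exists_coord j (F p) hq _ hΨ hΨ' (sub_self _)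
    (fun _ => True) (Eventually.of_forall fun _ => trivial)
  obtain ⟨φ, hφ1, hφ2, hφ3, hφ4⟩ := exists_coord i p hp Φ hΦ hd h0
    (fun x => F x ∈ ψ.source ∧ ch j (F x) - ch j (F p) = Φ (ch i x) ^ d)
    ((F_continuous.continuousAt.eventually (ψ.open_source.mem_nhds hψ2)).and h)
  refine ⟨φ, ψ, hφ1, hψ1, hφ2, hφ3, hψ2, hψ3, fun x hx => ?_⟩
  obtain ⟨-, e1, e2, e3⟩ := hφ4 x hx
  refine ⟨e2, ?_⟩
  rw [(hψ4 _ e2).2.1, e1, e3]

theorem ev_ne {p q : Sph} (h : p ≠ q) : ∀ᶠ x in 𝓝 p, x ≠ q := isOpen_ne.mem_nhds h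

theorem coe_ne_coe {z w : ℂ} (h : z ≠ w) : (z : Sph) ≠ (w : Sph) :=
  fun h' => h (OnePoint.coe_eq_coe.1 h')

theorem ch_true_coe (z : ℂ) : ch true (z : Sph) = z⁻¹ := toC_inv_coe z
theorem ch_true_infty : ch true ∞ = 0 := rfl
theorem ch_false_coe (z : ℂ) : ch false (z : Sph) = z := rfl

theorem ch_true_F {z : ℂ} (hz : z ≠ 0) : ch true (F (z : Sph)) = lam ^ 2 * z / (z - 1) ^ 2 := by
  rw [F_coe hz, ch_true_coe, inv_div]

theorem mul_der {h : ℂ → ℂ} {a : ℂ} (hh : AnalyticAt ℂ h a) :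
    HasDerivAt (fun z => (z - a) * h z) (h a) a := by
  have h2 := ((hasDerivAt_id a).sub_const a).mul hh.differentiableAt.hasDerivAt
  refine HasDerivAt.congr_deriv (f := fun z => (z - a) * h z) h2 ?_
  show 1 * h a + (a - a) * deriv h a = h a
  ring

theorem ld_infty : LocalDegree F ∞ 1 := by
  have hp : (∞ : Sph) ∈ dom true := by
    show (∞ : Sph) ∈ ({((0 : ℂ) : Sph)}ᶜ : Set Sph)
    exact infty_ne_coe _
  have hder : HasDerivAt (fun w : ℂ => w * (lam ^ 2 / (1 - w) ^ 2)) (lam ^ 2) 0 := by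
    have h1 : AnalyticAt ℂ (fun w : ℂ => lam ^ 2 / (1 - w) ^ 2) 0 :=
      analyticAt_const.div ((analyticAt_const.sub analyticAt_id).pow 2) (by norm_num)
    have h2 := mul_der h1
    simp only [sub_zero, one_pow, div_one] at h2
    exact h2
  refine ld_gen (i := true) (j := true) hp (by rw [F_infty]; exact hp)
    (Φ := fun w => w * (lam ^ 2 / (1 - w) ^ 2)) ?_ ?_ ?_ ?_
  · rw [ch_true_infty]
    exact analyticAt_id.mul (analyticAt_const.div ((analyticAt_const.sub analyticAt_id).pow 2)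
      (by norm_num))
  · rw [ch_true_infty, hder.deriv]
    exact pow_ne_zero 2 lam_ne
  · rw [ch_true_infty]
    simp
  · filter_upwards [ev_ne (infty_ne_coe (0 : ℂ)), ev_ne (infty_ne_coe (1 : ℂ))] with x hx1 hx2
    induction x using OnePoint.rec with
    | infty => simp [F_infty, ch_true_infty]
    | coe z =>
      have hz : z ≠ 0 := fun h => hx1 (by rw [h])
      have hz1 : z - 1 ≠ 0 := sub_ne_zero.2 fun h => hx2 (by rw [h])
      rw [F_infty, ch_true_infty, ch_true_F hz, ch_true_coe, sub_zero, pow_one]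
      have h5 : (1 - z⁻¹) ≠ 0 := by
        have : 1 - z⁻¹ = (z - 1) / z := by field_simp
        rw [this]
        exact div_ne_zero hz1 hz
      field_simp

theorem ld_zero : LocalDegree F ((0 : ℂ) : Sph) 1 := by
  have hp : ((0 : ℂ) : Sph) ∈ dom false := coe_ne_infty _
  have hder : HasDerivAt (fun w : ℂ => w * (lam ^ 2 / (w - 1) ^ 2)) (lam ^ 2) 0 := by
    have h1 : AnalyticAt ℂ (fun w : ℂ => lam ^ 2 / (w - 1) ^ 2) 0 :=
      analyticAt_const.div ((analyticAt_id.sub analyticAt_const).pow 2) (by norm_num)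
    have h2 := mul_der h1
    have h3 : lam ^ 2 / ((0 : ℂ) - 1) ^ 2 = lam ^ 2 := by norm_num
    rw [h3] at h2
    simp only [sub_zero] at h2
    exact h2
  refine ld_gen (i := false) (j := true) hp (by rw [F_zero]; exact infty_ne_coe _)
    (Φ := fun w => w * (lam ^ 2 / (w - 1) ^ 2)) ?_ ?_ ?_ ?_
  · exact analyticAt_id.mul (analyticAt_const.div ((analyticAt_id.sub analyticAt_const).pow 2)
      (by rw [ch_false_coe]; norm_num))
  · rw [ch_false_coe, hder.deriv]
    exact pow_ne_zero 2 lam_ne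
  · rw [ch_false_coe]
    simp
  · filter_upwards [ev_ne (coe_ne_infty (0 : ℂ))] with x hx1
    induction x using OnePoint.rec with
    | infty => exact absurd rfl hx1
    | coe z =>
      rw [F_zero, ch_true_infty, ch_false_coe, sub_zero, pow_one]
      by_cases hz : z = 0
      · subst hz
        rw [F_zero, ch_true_infty]
        simp
      · rw [ch_true_F hz]
        ring

theorem ld_coe {a : ℂ} (h0 : a ≠ 0) (h1 : a ≠ 1) (h2 : a ≠ -1) : LocalDegree F (a : Sph) 1 := by
  have hp : (a : Sph) ∈ dom false := coe_ne_infty _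
  have h3 : lam ^ 2 * a ≠ 0 := mul_ne_zero (pow_ne_zero 2 lam_ne) h0
  have hder : HasDerivAt (fun z : ℂ => (z - 1) ^ 2 / (lam ^ 2 * z) - (a - 1) ^ 2 / (lam ^ 2 * a))
      ((a - 1) * (a + 1) / (lam ^ 2 * a ^ 2)) a := by
    have e1 := (((hasDerivAt_id a).sub_const 1).pow 2).div ((hasDerivAt_id a).const_mul (lam ^ 2)) h3
    have e2 := e1.sub_const ((a - 1) ^ 2 / (lam ^ 2 * a))
    refine HasDerivAt.congr_deriv (f := fun z : ℂ => (z - 1) ^ 2 / (lam ^ 2 * z) -
      (a - 1) ^ 2 / (lam ^ 2 * a)) e2 ?_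
    have h4 := lam_ne
    simp only [id, Pi.pow_apply, Nat.cast_ofNat]
    field_simp
    ring
  refine ld_gen (i := false) (j := false) hp (by rw [F_coe h0]; exact coe_ne_infty _)
    (Φ := fun z : ℂ => (z - 1) ^ 2 / (lam ^ 2 * z) - (a - 1) ^ 2 / (lam ^ 2 * a)) ?_ ?_ ?_ ?_
  · exact (((analyticAt_id.sub analyticAt_const).pow 2).div (analyticAt_const.mul analyticAt_id)
      h3).sub analyticAt_const
  · rw [ch_false_coe, hder.deriv]
    refine div_ne_zero (mul_ne_zero (sub_ne_zero.2 h1) ?_)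
      (mul_ne_zero (pow_ne_zero 2 lam_ne) (pow_ne_zero 2 h0))
    intro h
    exact h2 (by linear_combination h)
  · rw [ch_false_coe, sub_self]
  · filter_upwards [ev_ne (coe_ne_infty a), ev_ne (coe_ne_coe h0)] with x hx1 hx2
    induction x using OnePoint.rec with
    | infty => exact absurd rfl hx1
    | coe z =>
      have hz : z ≠ 0 := fun h => hx2 (by rw [h])
      rw [F_coe h0, F_coe hz, ch_false_coe, ch_false_coe, ch_false_coe, pow_one]

/-- a square root near `1` -/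
def sq (z : ℂ) : ℂ := Complex.exp (Complex.log z / 2)

theorem sq_sq {z : ℂ} (hz : z ≠ 0) : sq z ^ 2 = z := by
  unfold sq
  rw [← Complex.exp_nat_mul]
  have : ((2 : ℕ) : ℂ) * (Complex.log z / 2) = Complex.log z := by
    push_cast
    ring
  rw [this, Complex.exp_log hz]

theorem sq_ne (z : ℂ) : sq z ≠ 0 := Complex.exp_ne_zero _

theorem sq_an : AnalyticAt ℂ sq 1 :=
  (((analyticAt_id.clog (by simp)).div analyticAt_const two_ne_zero)).cexp

theorem ld_one : LocalDegree F ((1 : ℂ) : Sph) 2 := by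
  have hp : ((1 : ℂ) : Sph) ∈ dom false := coe_ne_infty _
  have han : AnalyticAt ℂ (fun z : ℂ => 1 / (lam * sq z)) 1 :=
    analyticAt_const.div (analyticAt_const.mul sq_an) (mul_ne_zero lam_ne (sq_ne _))
  have hder : HasDerivAt (fun z : ℂ => (z - 1) * (1 / (lam * sq z))) (1 / (lam * sq 1)) 1 := by
    exact mul_der han
  refine ld_gen (i := false) (j := false) hp (by rw [F_one]; exact coe_ne_infty _)
    (Φ := fun z : ℂ => (z - 1) * (1 / (lam * sq z))) ?_ ?_ ?_ ?_
  · exact (analyticAt_id.sub analyticAt_const).mul han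
  · rw [ch_false_coe, hder.deriv]
    exact one_div_ne_zero (mul_ne_zero lam_ne (sq_ne _))
  · rw [ch_false_coe, sub_self, zero_mul]
  · filter_upwards [ev_ne (coe_ne_infty (1 : ℂ)), ev_ne (coe_ne_coe (one_ne_zero (α := ℂ)))]
      with x hx1 hx2
    induction x using OnePoint.rec with
    | infty => exact absurd rfl hx1
    | coe z =>
      have hz : z ≠ 0 := fun h => hx2 (by rw [h])
      rw [F_one, F_coe hz, ch_false_coe, ch_false_coe, ch_false_coe, sub_zero, mul_pow, div_pow,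
        mul_pow, sq_sq hz]
      ring

theorem ld_neg_one : LocalDegree F ((-1 : ℂ) : Sph) 2 := by
  have hp : ((-1 : ℂ) : Sph) ∈ dom false := coe_ne_infty _
  have hn : (-1 : ℂ) ≠ 0 := by norm_num
  have hsan : AnalyticAt ℂ (fun z : ℂ => sq (-z)) (-1) := by
    have h1 : AnalyticAt ℂ (fun z : ℂ => -z) (-1) := analyticAt_id.neg
    exact AnalyticAt.fun_comp (f := fun z : ℂ => -z) (by rw [neg_neg]; exact sq_an) h1
  have hIl : Complex.I * lam ≠ 0 := mul_ne_zero Complex.I_ne_zero lam_ne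
  have han : AnalyticAt ℂ (fun z : ℂ => 1 / (Complex.I * lam * sq (-z))) (-1) :=
    analyticAt_const.div (analyticAt_const.mul hsan) (mul_ne_zero hIl (sq_ne _))
  have hder : HasDerivAt (fun z : ℂ => (z + 1) * (1 / (Complex.I * lam * sq (-z))))
      (1 / (Complex.I * lam * sq (- -1))) (-1) := by
    have h2 := mul_der han
    simp only [sub_neg_eq_add] at h2
    exact h2
  refine ld_gen (i := false) (j := false) hp (by rw [F_neg_one]; exact coe_ne_infty _)
    (Φ := fun z : ℂ => (z + 1) * (1 / (Complex.I * lam * sq (-z)))) ?_ ?_ ?_ ?_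
  · exact (analyticAt_id.add analyticAt_const).mul han
  · rw [ch_false_coe, hder.deriv]
    exact one_div_ne_zero (mul_ne_zero hIl (sq_ne _))
  · rw [ch_false_coe, neg_add_cancel, zero_mul]
  · filter_upwards [ev_ne (coe_ne_infty (-1 : ℂ)), ev_ne (coe_ne_coe hn)] with x hx1 hx2
    induction x using OnePoint.rec with
    | infty => exact absurd rfl hx1
    | coe z =>
      have hz : z ≠ 0 := fun h => hx2 (by rw [h])
      rw [F_neg_one, F_coe hz, ch_false_coe, ch_false_coe, ch_false_coe, mul_pow, div_pow,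
        mul_pow, mul_pow, sq_sq (neg_ne_zero.2 hz), Complex.I_sq]
      have h1 := lam_ne
      have h2 := lam_sq_uu
      field_simp
      linear_combination (-z) * h2

theorem ld_all (p : Sph) : ∃ d, 1 ≤ d ∧ LocalDegree F p d := by
  induction p using OnePoint.rec with
  | infty => exact ⟨1, le_rfl, ld_infty⟩
  | coe a =>
    by_cases h0 : a = 0
    · subst h0; exact ⟨1, le_rfl, ld_zero⟩
    by_cases h1 : a = 1
    · subst h1; exact ⟨2, by norm_num, ld_one⟩
    by_cases h2 : a = -1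
    · subst h2; exact ⟨2, by norm_num, ld_neg_one⟩
    exact ⟨1, le_rfl, ld_coe h0 h1 h2⟩

theorem ld_unique {p : Sph} (h1 : LocalDegree F p 1) {d : ℕ} (hd : 2 ≤ d)
    (h2 : LocalDegree F p d) : False := by
  obtain ⟨φ, ψ, -, -, hp, -, -, -, hφ⟩ := h1
  obtain ⟨φ', ψ', -, -, hp', hp0, -, -, hφ'⟩ := h2
  have hinj : InjOn F φ.source := by
    intro x hx y hy hxy
    have e1 := (hφ x hx).2
    have e2 := (hφ y hy).2
    rw [pow_one] at e1 e2
    exact φ.injOn hx hy (by rw [← e1, ← e2, hxy])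
  have h0t : (0 : ℂ) ∈ φ'.target := by rw [← hp0]; exact φ'.map_source hp'
  have hsymm : φ'.symm 0 = p := by rw [← hp0]; exact φ'.left_inv hp'
  have hev : ∀ᶠ t in 𝓝 (0 : ℂ), t ∈ φ'.target ∧ φ'.symm t ∈ φ.source := by
    have hx : ∀ᶠ t in 𝓝 (0 : ℂ), t ∈ φ'.target := φ'.open_target.mem_nhds h0t
    refine hx.and ?_
    have hc : ContinuousAt φ'.symm 0 := φ'.continuousAt_symm h0t
    apply hc.eventually
    rw [hsymm]
    exact φ.open_source.mem_nhds hp
  set ζ : ℂ := Complex.exp (2 * Real.pi * Complex.I / d) with hζ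
  have hζ1 : ζ ≠ 1 := (Complex.isPrimitiveRoot_exp d (by omega)).ne_one (by omega)
  have hζd : ζ ^ d = 1 := (Complex.isPrimitiveRoot_exp d (by omega)).pow_eq_one
  have hev2 : ∀ᶠ t in 𝓝 (0 : ℂ), ζ * t ∈ φ'.target ∧ φ'.symm (ζ * t) ∈ φ.source := by
    have hc : Tendsto (fun t : ℂ => ζ * t) (𝓝 0) (𝓝 0) := by
      have : Tendsto (fun t : ℂ => ζ * t) (𝓝 0) (𝓝 (ζ * 0)) :=
        (continuous_const.mul continuous_id).tendsto 0
      simpa using this
    exact hc.eventually hev
  obtain ⟨t, ⟨⟨ht1, ht2⟩, ht3, ht4⟩, ht0⟩ :=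
    (((hev.and hev2).filter_mono (nhdsWithin_le_nhds (s := {0}ᶜ))).and self_mem_nhdsWithin).exists
  have s1 : φ'.symm t ∈ φ'.source := φ'.map_target ht1
  have s2 : φ'.symm (ζ * t) ∈ φ'.source := φ'.map_target ht3
  have e1 := hφ' _ s1
  have e2 := hφ' _ s2
  rw [φ'.right_inv ht1] at e1
  rw [φ'.right_inv ht3, mul_pow, hζd, one_mul] at e2
  have e3 : F (φ'.symm t) = F (φ'.symm (ζ * t)) := ψ'.injOn e1.1 e2.1 (by rw [e1.2, e2.2])
  have e4 := hinj ht2 ht4 e3
  have e5 : t = ζ * t := by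
    have := congrArg φ' e4
    rwa [φ'.right_inv ht1, φ'.right_inv ht3] at this
  apply hζ1
  have e6 : (ζ - 1) * t = 0 := by linear_combination -e5
  exact sub_eq_zero.1 ((mul_eq_zero.1 e6).resolve_right ht0)

theorem crit_eq : crit F = {((1 : ℂ) : Sph), ((-1 : ℂ) : Sph)} := by
  ext p
  constructor
  · rintro ⟨d, hd, h⟩
    induction p using OnePoint.rec with
    | infty => exact (ld_unique ld_infty hd h).elim
    | coe a =>
      by_cases h0 : a = 0
      · subst h0; exact (ld_unique ld_zero hd h).elim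
      by_cases h1 : a = 1
      · subst h1; exact Or.inl rfl
      by_cases h2 : a = -1
      · subst h2; exact Or.inr rfl
      exact (ld_unique (ld_coe h0 h1 h2) hd h).elim
  · rintro (h | h)
    · rw [h]; exact ⟨2, le_rfl, ld_one⟩
    · rw [h]; exact ⟨2, le_rfl, ld_neg_one⟩

/-- the postcritical points -/
def PS : Set Sph := {∞, ((0 : ℂ) : Sph), (uu : Sph), ((uu⁻¹ : ℂ) : Sph)}

theorem F_PS {x : Sph} (hx : x ∈ PS) : F x ∈ PS := by
  rcases hx with rfl | rfl | rfl | h
  · exact Or.inl rfl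
  · exact Or.inl F_zero
  · rw [F_uu]; exact Or.inr (Or.inr (Or.inr rfl))
  · have h' : x = ((uu⁻¹ : ℂ) : Sph) := h
    rw [h', F_uu_inv]; exact Or.inr (Or.inr (Or.inr rfl))

theorem F_it_PS {x : Sph} (hx : x ∈ PS) (n : ℕ) : F^[n] x ∈ PS := by
  induction n with
  | zero => exact hx
  | succ n ih => rw [Function.iterate_succ_apply']; exact F_PS ih

theorem post_eq : post F = PS := by
  ext y
  constructor
  · rintro ⟨n, hn, c, hc, rfl⟩
    obtain ⟨m, rfl⟩ : ∃ m, n = m + 1 := ⟨n - 1, by omega⟩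
    rw [Function.iterate_succ_apply]
    apply F_it_PS
    rw [crit_eq] at hc
    rcases hc with rfl | h
    · rw [F_one]; exact Or.inr (Or.inl rfl)
    · have h' : c = ((-1 : ℂ) : Sph) := h
      rw [h', F_neg_one]; exact Or.inr (Or.inr (Or.inl rfl))
  · have h1 : ((1 : ℂ) : Sph) ∈ crit F := by rw [crit_eq]; exact Or.inl rfl
    have h2 : ((-1 : ℂ) : Sph) ∈ crit F := by rw [crit_eq]; exact Or.inr rfl
    rintro (rfl | rfl | rfl | h)
    · refine ⟨2, by norm_num, _, h1, ?_⟩
      show F (F _) = _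
      rw [F_one, F_zero]
    · exact ⟨1, le_rfl, _, h1, F_one⟩
    · exact ⟨1, le_rfl, _, h2, F_neg_one⟩
    · have h' : y = ((uu⁻¹ : ℂ) : Sph) := h
      refine ⟨2, by norm_num, _, h2, ?_⟩
      show F (F _) = _
      rw [F_neg_one, F_uu, h']

theorem F_thurston : IsThurston F := by
  refine ⟨⟨F_continuous, ld_all⟩, ?_, ?_⟩
  · intro h
    have h1 : F ∞ = F ((0 : ℂ) : Sph) := by rw [F_zero, F_infty]
    exact infty_ne_coe _ (h h1)
  · rw [post_eq]
    exact ((((Set.finite_singleton _).insert _).insert _).insert _)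

end Pool.Agent.H208.CM
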