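import Mathlib

set_option autoImplicit false

/-!
# The lattice `ℤ[λ]`, `λ = (1 + √-7) / 2`
-/

noncomputable section

namespace Pool.Agent.H208.CM

open Complex

/-- `λ = (1 + i √7) / 2` -/
def lam : ℂ := (1 + (Real.sqrt 7 : ℝ) * I) / 2

theorem sqrt7_sq : ((Real.sqrt 7 : ℝ) : ℂ) ^ 2 = 7 := by
  rw [← Complex.ofReal_pow, Real.sq_sqrt (by norm_num)]
  norm_num

theorem lam_sq : lam ^ 2 = lam - 2 := by
  unfold lam
  linear_combination (1 / 4) * I ^ 2 * sqrt7_sq + (7 / 4) * I_sq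

theorem lam_re : lam.re = 1 / 2 := by
  simp [lam]

theorem lam_im : lam.im = Real.sqrt 7 / 2 := by
  simp [lam]

theorem normSq_lam : normSq lam = 2 := by
  rw [normSq_apply, lam_re, lam_im]
  have h : Real.sqrt 7 * Real.sqrt 7 = 7 := Real.mul_self_sqrt (by norm_num)
  nlinarith

theorem lam_ne : lam ≠ 0 := by
  intro h
  have := normSq_lam
  rw [h] at this
  simp at this

theorem norm_lam_sq : ‖lam‖ ^ 2 = 2 := by
  rw [← normSq_eq_norm_sq, normSq_lam]

theorem one_lt_norm_lam : 1 < ‖lam‖ := by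
  nlinarith [norm_lam_sq, norm_nonneg lam]

theorem indep : LinearIndependent ℝ ![(1 : ℂ), lam] := by
  rw [LinearIndependent.pair_iff]
  intro s t h
  have h1 := congrArg Complex.im h
  have h2 := congrArg Complex.re h
  have h7 : 0 < Real.sqrt 7 := Real.sqrt_pos.2 (by norm_num)
  simp only [Complex.add_im, Complex.real_smul, Complex.mul_im, Complex.ofReal_re,
    Complex.ofReal_im, Complex.one_im, Complex.one_re, lam_im, lam_re, Complex.zero_im,
    Complex.add_re, Complex.mul_re, Complex.zero_re] at h1 h2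
  have ht : t = 0 := by nlinarith
  subst ht
  exact ⟨by linarith, rfl⟩

/-- the pair of periods `1, λ` -/
def LP : PeriodPair := ⟨1, lam, indep⟩

/-- `ℤ + ℤ λ` -/
abbrev Lat : Submodule ℤ ℂ := LP.lattice

theorem mem_Lat {z : ℂ} : z ∈ Lat ↔ ∃ m n : ℤ, (m : ℂ) + n * lam = z := by
  rw [PeriodPair.mem_lattice]
  show (∃ m n : ℤ, (m : ℂ) * 1 + n * lam = z) ↔ _
  simp

theorem one_mem : (1 : ℂ) ∈ Lat := mem_Lat.2 ⟨1, 0, by simp⟩
theorem lam_mem : lam ∈ Lat := mem_Lat.2 ⟨0, 1, by simp⟩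

theorem lam_mul_mem {z : ℂ} (h : z ∈ Lat) : lam * z ∈ Lat := by
  obtain ⟨m, n, rfl⟩ := mem_Lat.1 h
  refine mem_Lat.2 ⟨-2 * n, m + n, ?_⟩
  push_cast
  linear_combination (-(n : ℂ)) * lam_sq

theorem mul_mem' {z w : ℂ} (hz : z ∈ Lat) (hw : w ∈ Lat) : z * w ∈ Lat := by
  obtain ⟨m, n, rfl⟩ := mem_Lat.1 hz
  have h1 := Lat.smul_mem m hw
  have h2 := Lat.smul_mem n (lam_mul_mem hw)
  have := Lat.add_mem h1 h2
  rw [zsmul_eq_mul, zsmul_eq_mul] at this
  convert this using 1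
  ring

theorem normSq_int (m n : ℤ) : normSq ((m : ℂ) + n * lam) = (m ^ 2 + m * n + 2 * n ^ 2 : ℤ) := by
  have h : Real.sqrt 7 * Real.sqrt 7 = 7 := Real.mul_self_sqrt (by norm_num)
  rw [normSq_apply]
  simp only [Complex.add_re, Complex.intCast_re, Complex.mul_re, Complex.intCast_im, lam_re,
    lam_im, Complex.add_im, Complex.mul_im]
  push_cast
  linear_combination ((n : ℝ) ^ 2 / 4) * h

theorem one_le_normSq {z : ℂ} (hz : z ∈ Lat) (h0 : z ≠ 0) : 1 ≤ normSq z := by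
  obtain ⟨m, n, rfl⟩ := mem_Lat.1 hz
  have h1 : 0 < normSq ((m : ℂ) + n * lam) := normSq_pos.2 h0
  rw [normSq_int] at h1 ⊢
  have h2 : (0 : ℤ) < m ^ 2 + m * n + 2 * n ^ 2 := by exact_mod_cast h1
  exact_mod_cast h2

theorem one_le_norm {z : ℂ} (hz : z ∈ Lat) (h0 : z ≠ 0) : 1 ≤ ‖z‖ := by
  have h := one_le_normSq hz h0
  rw [normSq_eq_norm_sq] at h
  nlinarith [norm_nonneg z]

/-- `1 / λ` is not in the lattice -/
theorem one_ne_lam_mul {v : ℂ} (hv : v ∈ Lat) : (1 : ℂ) ≠ lam * v := by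
  intro h
  have h0 : v ≠ 0 := by
    rintro rfl
    simp at h
  have h1 := one_le_normSq hv h0
  have h2 : normSq (1 : ℂ) = normSq lam * normSq v := by rw [h, map_mul]
  rw [normSq_lam, map_one] at h2
  linarith

/-- `ω = 1 / λ`, a half period -/
def om : ℂ := lam⁻¹

theorem lam_om : lam * om = 1 := mul_inv_cancel₀ lam_ne

theorem two_om : 2 * om = 1 - lam := by
  have h := lam_om
  have h2 : lam * (2 * om) = lam * (1 - lam) := by
    linear_combination 2 * h + lam_sq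
  exact mul_left_cancel₀ lam_ne h2

theorem two_om_mem : 2 * om ∈ Lat := by
  rw [two_om]
  exact Lat.sub_mem one_mem lam_mem

theorem om_not_mem : om ∉ Lat := fun h => one_ne_lam_mul h lam_om.symm

theorem neg_om_sub : -om - om ∈ Lat := by
  have := Lat.neg_mem two_om_mem
  convert this using 1
  ring

/-- `λ⁻¹ Λ = Λ ∪ (ω + Λ)` -/
theorem mem_or_of_lam_mul {z : ℂ} (h : lam * z ∈ Lat) : z ∈ Lat ∨ z - om ∈ Lat := by
  obtain ⟨m, n, hmn⟩ := mem_Lat.1 h
  have hz : z = m * om + n := by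
    have h1 : lam * z = lam * (m * om + n) := by
      rw [← hmn]
      linear_combination (-(m : ℂ)) * lam_om
    exact mul_left_cancel₀ lam_ne h1
  rcases Int.even_or_odd m with ⟨k, hk⟩ | ⟨k, hk⟩
  · left
    have h1 := Lat.add_mem (Lat.smul_mem k two_om_mem) (Lat.smul_mem n one_mem)
    rw [zsmul_eq_mul, zsmul_eq_mul] at h1
    rw [hz, hk]
    convert h1 using 1
    push_cast
    ring
  · right
    have h1 := Lat.add_mem (Lat.smul_mem k two_om_mem) (Lat.smul_mem n one_mem)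
    rw [zsmul_eq_mul, zsmul_eq_mul] at h1
    rw [hz, hk]
    convert h1 using 1
    push_cast
    ring

theorem lam_mul_om_add {z : ℂ} (h : z - om ∈ Lat) : lam * z ∈ Lat := by
  have h1 := Lat.add_mem (lam_mul_mem h) one_mem
  convert h1 using 1
  linear_combination lam_om

end Pool.Agent.H208.CM
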