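import Pool.Agent.H208.CM.Lat

set_option autoImplicit false

/-!
# Liouville's theorem for meromorphic functions which are periodic for the lattice `ℤ[λ]`
-/

noncomputable section

namespace Pool.Agent.H208.CM

open Filter Topology Set

theorem codis_open {U : Set ℂ} (hU : U ∈ codiscrete ℂ) : IsOpen U := (mem_codiscrete'.1 hU).1

theorem codis_countable {U : Set ℂ} (hU : U ∈ codiscrete ℂ) : Uᶜ.Countable :=
  (HereditarilyLindelofSpace.isLindelof _).countable_of_isDiscrete (mem_codiscrete'.1 hU).2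

theorem codis_connected {U : Set ℂ} (hU : U ∈ codiscrete ℂ) : IsConnected U := by
  have h := (codis_countable hU).isConnected_compl_of_one_lt_rank (E := ℂ) (by
    rw [Complex.rank_real_complex]
    exact Nat.one_lt_ofNat)
  rwa [compl_compl] at h

theorem codis_ne {U : Set ℂ} (hU : U ∈ codiscrete ℂ) : U.Nonempty := (codis_connected hU).nonempty

theorem codis_punct {U : Set ℂ} (hU : U ∈ codiscrete ℂ) (x : ℂ) : U ∈ 𝓝[≠] x := by
  have h := mem_codiscrete.1 hU x
  rwa [disjoint_principal_right, compl_compl] at h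

theorem codis_of_punct {U : Set ℂ} (h : ∀ x, U ∈ 𝓝[≠] x) : U ∈ codiscrete ℂ := by
  rw [mem_codiscrete]
  intro x
  rw [disjoint_principal_right, compl_compl]
  exact h x

instance : (codiscrete ℂ).NeBot := by
  constructor
  intro h
  have h1 : (∅ : Set ℂ) ∈ codiscrete ℂ := by rw [h]; exact mem_bot
  exact (codis_ne h1).ne_empty rfl

theorem codis_ev {p : ℂ → Prop} (h : ∀ᶠ z in codiscrete ℂ, p z) (x : ℂ) : ∀ᶠ z in 𝓝[≠] x, p z :=
  codis_punct h x

theorem codis_of_ev {p : ℂ → Prop} (h : ∀ x, ∀ᶠ z in 𝓝[≠] x, p z) : ∀ᶠ z in codiscrete ℂ, p z :=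
  codis_of_punct h

theorem codis_nhds {U : Set ℂ} (hU : U ∈ codiscrete ℂ) {x : ℂ} (hx : x ∈ U) : U ∈ 𝓝 x :=
  (codis_open hU).mem_nhds hx

theorem punct_shift {p : ℂ → Prop} (a x : ℂ) (h : ∀ᶠ z in 𝓝[≠] (x + a), p z) :
    ∀ᶠ z in 𝓝[≠] x, p (z + a) := by
  have h1 : Tendsto (fun z : ℂ => z + a) (𝓝[≠] x) (𝓝[≠] (x + a)) := by
    apply tendsto_nhdsWithin_of_tendsto_nhds_of_eventually_within
    · exact ((continuous_id.add continuous_const).tendsto x).mono_left nhdsWithin_le_nhds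
    · filter_upwards [self_mem_nhdsWithin] with z hz
      intro h2
      exact hz (add_right_cancel h2)
  exact h1.eventually h

theorem codis_shift {p : ℂ → Prop} (a : ℂ) (h : ∀ᶠ z in codiscrete ℂ, p z) :
    ∀ᶠ z in codiscrete ℂ, p (z + a) :=
  codis_of_ev fun x => punct_shift a x (codis_ev h (x + a))

theorem mero_top {f : ℂ → ℂ} (hf : Meromorphic f) {x : ℂ} (h : ∃ᶠ z in 𝓝[≠] x, f z = 0) (y : ℂ) :
    ∀ᶠ z in 𝓝[≠] y, f z = 0 := by
  have h1 := (hf x).frequently_zero_iff_eventuallyEq_zero.1 h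
  have h2 : meromorphicOrderAt f x = ⊤ := meromorphicOrderAt_eq_top_iff.2 h1
  by_contra h3
  have h4 : meromorphicOrderAt f y ≠ ⊤ := fun h5 => h3 (meromorphicOrderAt_eq_top_iff.1 h5)
  exact (MeromorphicOn.meromorphicOrderAt_ne_top_of_isPreconnected (U := univ)
    (fun z _ => hf z) isPreconnected_univ (mem_univ y) (mem_univ x) h4) h2

/-- identity theorem -/
theorem mero_id {f : ℂ → ℂ} (hf : Meromorphic f) {x : ℂ} (h : ∃ᶠ z in 𝓝[≠] x, f z = 0) :
    ∀ᶠ z in codiscrete ℂ, f z = 0 :=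
  codis_of_ev (mero_top hf h)

theorem mero_ne {f : ℂ → ℂ} (hf : Meromorphic f) (h : ¬ ∀ᶠ z in codiscrete ℂ, f z = 0) :
    ∀ᶠ z in codiscrete ℂ, f z ≠ 0 := by
  apply codis_of_ev
  intro x
  by_contra h1
  exact h (mero_id hf (by simpa using h1))

theorem mero_id2 {f g : ℂ → ℂ} (hf : Meromorphic f) (hg : Meromorphic g) {x : ℂ}
    (h : ∃ᶠ z in 𝓝[≠] x, f z = g z) : ∀ᶠ z in codiscrete ℂ, f z = g z := by
  have h1 := mero_id (hf.sub hg) (x := x) (h.mono fun z hz => by rw [Pi.sub_apply, hz, sub_self])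
  filter_upwards [h1] with z hz
  exact sub_eq_zero.1 hz

/-- frequently in a punctured neighbourhood from eventually in a neighbourhood -/
theorem freq_of_ev {p : ℂ → Prop} {x : ℂ} (h : ∀ᶠ z in 𝓝 x, p z) : ∃ᶠ z in 𝓝[≠] x, p z :=
  (h.filter_mono nhdsWithin_le_nhds).frequently

theorem mero_comp_add {f : ℂ → ℂ} (hf : Meromorphic f) (a : ℂ) :
    Meromorphic (fun z => f (z + a)) := by
  intro x
  exact (hf (x + a)).comp_analyticAt (g := fun z => z + a) (analyticAt_id.add analyticAt_const)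

/-- an identity on a codiscrete set holds at all points where both sides are continuous -/
theorem eq_of_codis {f g : ℂ → ℂ} (h : ∀ᶠ z in codiscrete ℂ, f z = g z) {x : ℂ}
    (hf : ContinuousAt f x) (hg : ContinuousAt g x) : f x = g x := by
  have h1 : f =ᶠ[𝓝[≠] x] g := codis_ev h x
  exact ((hf.eventuallyEq_nhds_iff_eventuallyEq_nhdsNE hg).1 h1).self_of_nhds

theorem nf_codis {g : ℂ → ℂ} (hg : Meromorphic g) :
    ∀ᶠ z in codiscrete ℂ, g z = toMeromorphicNFOn g univ z :=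
  codis_of_ev fun z => (MeromorphicOn.toMeromorphicNFOn_eq_self_on_nhdsNE (fun z _ => hg z)
    (mem_univ z)).symm

theorem nf_an {G u : ℂ → ℂ} (hG : Meromorphic G) {z : ℂ} (hu : AnalyticAt ℂ u z)
    (h : G =ᶠ[𝓝[≠] z] u) : AnalyticAt ℂ (toMeromorphicNFOn G univ) z := by
  have h1 : MeromorphicNFAt (toMeromorphicNFOn G univ) z :=
    meromorphicNFOn_toMeromorphicNFOn G univ (mem_univ z)
  have h2 : toMeromorphicNFOn G univ =ᶠ[𝓝[≠] z] u := by
    filter_upwards [codis_ev (nf_codis hG) z, h] with y h3 h4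
    rw [← h3, h4]
  have h3 := (h1.eventuallyEq_nhdsNE_iff_eventuallyEq_nhds hu.meromorphicNFAt).1 h2
  exact hu.congr h3.symm

theorem nf_per {G : ℂ → ℂ} (hG : Meromorphic G) {a : ℂ} (h : ∀ z, G (z + a) = G z) (z : ℂ) :
    toMeromorphicNFOn G univ (z + a) = toMeromorphicNFOn G univ z := by
  have h1 : MeromorphicNFAt (fun z => toMeromorphicNFOn G univ (z + a)) z :=
    (meromorphicNFOn_toMeromorphicNFOn G univ (mem_univ (z + a))).comp_analyticAt
      (g := fun z => z + a) (analyticAt_id.add analyticAt_const)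
  have h2 : (fun z => toMeromorphicNFOn G univ (z + a)) =ᶠ[𝓝[≠] z] toMeromorphicNFOn G univ := by
    filter_upwards [codis_ev (codis_shift a (nf_codis hG)) z, codis_ev (nf_codis hG) z]
      with y h3 h4
    rw [← h3, ← h4, h]
  exact ((h1.eventuallyEq_nhdsNE_iff_eventuallyEq_nhds
    (meromorphicNFOn_toMeromorphicNFOn G univ (mem_univ z))).1 h2).self_of_nhds

/-- the singularity of `g` at `z` is removable -/
def Rem (g : ℂ → ℂ) (z : ℂ) : Prop := ∃ u, AnalyticAt ℂ u z ∧ g =ᶠ[𝓝[≠] z] u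

theorem Rem.of_an {g : ℂ → ℂ} {z : ℂ} (h : AnalyticAt ℂ g z) : Rem g z :=
  ⟨g, h, EventuallyEq.rfl⟩

theorem Rem.shift {g : ℂ → ℂ} {z : ℂ} (a : ℂ) (ha : ∀ z, g (z + a) = g z) (h : Rem g (z + a)) :
    Rem g z := by
  obtain ⟨u, hu, h⟩ := h
  refine ⟨fun z => u (z + a), hu.fun_comp (f := fun z => z + a) (analyticAt_id.add analyticAt_const), ?_⟩
  filter_upwards [punct_shift a z h] with y hy
  rw [← ha, hy]

/-- Liouville's theorem for elliptic functions -/
theorem ell_const {g : ℂ → ℂ} (hg : Meromorphic g) (hper : ∀ z, ∀ v ∈ Lat, g (z + v) = g z)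
    (hu : ∀ z, Rem g z) : ∃ c, ∀ᶠ z in codiscrete ℂ, g z = c := by
  set G := toMeromorphicNFOn g univ with hG
  have han : ∀ z, AnalyticAt ℂ G z := by
    intro z
    obtain ⟨u, hu1, hu2⟩ := hu z
    exact nf_an hg hu1 hu2
  have hd : Differentiable ℂ G := fun z => (han z).differentiableAt
  have hp : ∀ z w, w ∈ Lat → G (z + w) = G z := by
    intro z w hw
    exact nf_per hg (fun z => hper z w hw) z
  have hb : Bornology.IsBounded (range G) :=
    (IsZLattice.isCompact_range_of_periodic Lat G hd.continuous (by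
      intro z w hw
      exact hp z w hw)).isBounded
  refine ⟨G 0, ?_⟩
  filter_upwards [nf_codis hg] with z hz
  rw [hz]
  exact hd.apply_eq_apply_of_bounded hb z 0

end Pool.Agent.H208.CM
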