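import Pool.Agent.H208.CM.Ell

set_option autoImplicit false

/-!
# Complex multiplication by `λ`
-/

noncomputable section

namespace Pool.Agent.H208.CM

open Filter Topology Set

/-- principal part at the lattice points -/
theorem P_pp {l : ℂ} (hl : l ∈ Lat) : ∃ r : ℂ → ℂ, AnalyticAt ℂ r l ∧
    ∀ w, w ≠ l → P w = 1 / (w - l) ^ 2 + r w := by
  refine ⟨fun z ↦ LP.weierstrassPExcept l z - 1 / l ^ 2, ?_, ?_⟩
  · have h1 : AnalyticAt ℂ (LP.weierstrassPExcept l) l := LP.analyticOnNhd_weierstrassPExcept l l (by simp)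
    exact h1.sub analyticAt_const
  · intro w hw
    have h1 := LP.ite_eq_one_sub_sq_mul_weierstrassP l hl w
    rw [if_neg hw] at h1
    have h2 : (w - l) ^ 2 ≠ 0 := pow_ne_zero 2 (sub_ne_zero.2 hw)
    have h3 : (w - l) ^ 2 * P w = (w - l) ^ 2 * LP.weierstrassPExcept l w + 1 - (w - l) ^ 2 / l ^ 2 := h1
    have h4 : (w - l) ^ 2 * P w = (w - l) ^ 2 * (1 / (w - l) ^ 2 +
        (LP.weierstrassPExcept l w - 1 / l ^ 2)) := by
      rw [h3, mul_add, mul_one_div_cancel h2]
      ring
    exact mul_left_cancel₀ h2 h4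

/-- the value at the half period `ω` -/
def ev : ℂ := P om

theorem P_add_two_om (z : ℂ) : P (z + om + om) = P z := by
  have := P_add z two_om_mem
  rw [← this]
  congr 1
  ring

theorem D_om : D om = 0 := by
  have h1 : D (om + (-om - om)) = D om := D_add om neg_om_sub
  have h2 : om + (-om - om) = -om := by ring
  rw [h2, D_neg] at h1
  have h3 : D om + D om = 0 := by
    nth_rewrite 1 [← h1]
    ring
  have h4 : 2 * D om = 0 := by linear_combination h3
  exact (mul_eq_zero.1 h4).resolve_left two_ne_zero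

theorem add_om_mem_iff {z : ℂ} : z + om ∈ Lat ↔ z - om ∈ Lat := by
  constructor
  · intro h
    have h1 := Lat.sub_mem h two_om_mem
    convert h1 using 1
    ring
  · intro h
    have h1 := Lat.add_mem h two_om_mem
    convert h1 using 1
    ring

theorem add_om_not_mem {z : ℂ} (hz : z ∈ Lat) : z + om ∉ Lat := by
  intro h
  have h1 := Lat.sub_mem h hz
  exact om_not_mem (by simpa using h1)

theorem P_add_om {z : ℂ} (hz : z ∈ Lat) : P (z + om) = ev := by
  rw [add_comm, P_add om hz]
  rfl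

theorem D_add_om {z : ℂ} (hz : z ∈ Lat) : D (z + om) = 0 := by
  rw [add_comm, D_add om hz, D_om]

/-- `P (· + ω) - e` vanishes to the second order at the lattice points -/
theorem fac {l : ℂ} (hl : l ∈ Lat) : ∃ b : ℂ → ℂ, AnalyticAt ℂ b l ∧
    ∀ᶠ w in 𝓝 l, P (w + om) - ev = (w - l) ^ 2 * b w := by
  have han : AnalyticAt ℂ (fun w => P (w + om) - ev) l := by
    have h : AnalyticAt ℂ (fun t : ℂ => t + om) l := analyticAt_id.add analyticAt_const
    exact (AnalyticAt.fun_comp (f := fun t : ℂ => t + om) (P_an (add_om_not_mem hl)) h).sub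
      analyticAt_const
  have h2 : (2 : ℕ) ≤ analyticOrderAt (fun w => P (w + om) - ev) l := by
    rw [natCast_le_analyticOrderAt_iff_iteratedDeriv_eq_zero han]
    intro i hi
    have hi' : i = 0 ∨ i = 1 := by omega
    rcases hi' with rfl | rfl
    · simp [P_add_om hl]
    · rw [iteratedDeriv_one]
      have h3 : HasDerivAt (fun w => P (w + om) - ev) (D (l + om)) l :=
        ((P_der (add_om_not_mem hl)).comp_add_const l om).sub_const ev
      rw [h3.deriv, D_add_om hl]
  obtain ⟨b, hb, hb2⟩ := (natCast_le_analyticOrderAt han).1 h2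
  refine ⟨b, hb, hb2.mono fun w hw => ?_⟩
  rw [hw, smul_eq_mul]

/-- the product of the two functions -/
theorem prod_const : ∃ c, c ≠ 0 ∧ ∀ z, z ∉ Lat → z + om ∉ Lat →
    (P (z + om) - ev) * (P z - ev) = c := by
  set g : ℂ → ℂ := fun z => (P (z + om) - ev) * (P z - ev) with hg
  have hsh : ∀ z, g (z + om) = g z := by
    intro z
    show (P (z + om + om) - ev) * (P (z + om) - ev) = (P (z + om) - ev) * (P z - ev)
    rw [P_add_two_om]
    ring
  have hm1 : Meromorphic fun z => P (z + om) - ev := by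
    intro z
    exact (mero_comp_add P_mero om z).sub (MeromorphicAt.const ev z)
  have hm2 : Meromorphic fun z => P z - ev := by
    intro z
    exact (P_mero z).sub (MeromorphicAt.const ev z)
  have hm : Meromorphic g := fun z => (hm1 z).mul (hm2 z)
  have hrem1 : ∀ z ∈ Lat, Rem g z := by
    intro z hz
    obtain ⟨b, hb, hb2⟩ := fac hz
    obtain ⟨r, hr, hr2⟩ := P_pp hz
    refine ⟨fun w => b w * (1 + (w - z) ^ 2 * (r w - ev)), ?_, ?_⟩
    · exact hb.mul (analyticAt_const.add (((analyticAt_id.sub analyticAt_const).pow 2).mul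
        (hr.sub analyticAt_const)))
    · filter_upwards [self_mem_nhdsWithin, hb2.filter_mono nhdsWithin_le_nhds] with w hw hw2
      show (P (w + om) - ev) * (P w - ev) = _
      have h2 : (w - z) ^ 2 ≠ 0 := pow_ne_zero 2 (sub_ne_zero.2 hw)
      rw [hw2, hr2 w hw]
      have h3 : (w - z) ^ 2 * (1 / (w - z) ^ 2) = 1 := mul_one_div_cancel h2
      linear_combination (b w) * h3
  obtain ⟨c, hc⟩ := ell_const hm (fun z v hv => by
    show (P (z + v + om) - ev) * (P (z + v) - ev) = _
    rw [P_add z hv, add_right_comm, P_add (z + om) hv]) (by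
    intro z
    by_cases hz : z ∈ Lat
    · exact hrem1 z hz
    · by_cases hz2 : z + om ∈ Lat
      · exact Rem.shift om hsh (hrem1 _ hz2)
      · apply Rem.of_an
        have h : AnalyticAt ℂ (fun t : ℂ => t + om) z := analyticAt_id.add analyticAt_const
        exact ((AnalyticAt.fun_comp (f := fun t : ℂ => t + om) (P_an hz2) h).sub
          analyticAt_const).mul ((P_an hz).sub analyticAt_const))
  refine ⟨c, ?_, ?_⟩
  · rintro rfl
    have h1 : ∀ᶠ z in codiscrete ℂ, P z - ev ≠ 0 := mero_ne hm2 (by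
      intro h
      exact P_not_const ev (h.mono fun z hz => sub_eq_zero.1 hz))
    have h2 : ∀ᶠ z in codiscrete ℂ, P (z + om) - ev ≠ 0 := codis_shift (p := fun z => P z - ev ≠ 0) om h1
    obtain ⟨z, ⟨hz1, hz2⟩, hz3⟩ := ((h1.and h2).and hc).exists
    exact mul_ne_zero hz2 hz1 hz3
  · intro z hz hz2
    have h : AnalyticAt ℂ (fun t : ℂ => t + om) z := analyticAt_id.add analyticAt_const
    have hga : AnalyticAt ℂ g z := ((AnalyticAt.fun_comp (f := fun t : ℂ => t + om) (P_an hz2) h).sub
          analyticAt_const).mul ((P_an hz).sub analyticAt_const)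
    exact eq_of_codis (f := g) (g := fun _ => c) hc hga.continuousAt continuousAt_const

theorem lam_mul_mem_iff {z : ℂ} : lam * z ∈ Lat ↔ z ∈ Lat ∨ z + om ∈ Lat := by
  constructor
  · intro h
    rcases mem_or_of_lam_mul h with h | h
    · exact Or.inl h
    · exact Or.inr (add_om_mem_iff.2 h)
  · rintro (h | h)
    · exact lam_mul_mem h
    · exact lam_mul_om_add (add_om_mem_iff.1 h)

/-- multiplication by `λ` -/
theorem mul_const : ∃ c, ∀ z, z ∉ Lat → z + om ∉ Lat →
    P (lam * z) = (P z + P (z + om)) / lam ^ 2 + c := by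
  set g : ℂ → ℂ := fun z => P (lam * z) - (P z + P (z + om)) / lam ^ 2 with hg
  have hsh : ∀ z, g (z + om) = g z := by
    intro z
    show P (lam * (z + om)) - (P (z + om) + P (z + om + om)) / lam ^ 2 = _
    rw [P_add_two_om, mul_add, lam_om, P_add _ one_mem, add_comm (P (z + om))]
  have hlin : ∀ z, AnalyticAt ℂ (fun t : ℂ => lam * t) z := fun z => analyticAt_const.mul analyticAt_id
  have hlin2 : ∀ z, AnalyticAt ℂ (fun t : ℂ => t + om) z := fun z =>
    analyticAt_id.add analyticAt_const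
  have hm : Meromorphic g := by
    intro z
    have h1 : MeromorphicAt (fun w => P (lam * w)) z :=
      (P_mero (lam * z)).comp_analyticAt (g := fun w => lam * w) (hlin z)
    exact h1.sub (((P_mero z).add (mero_comp_add P_mero om z)).div
      (MeromorphicAt.const _ z))
  have hrem1 : ∀ z ∈ Lat, Rem g z := by
    intro z hz
    obtain ⟨r, hr, hr2⟩ := P_pp hz
    obtain ⟨r', hr', hr2'⟩ := P_pp (lam_mul_mem hz)
    refine ⟨fun w => r' (lam * w) - (r w + P (w + om)) / lam ^ 2, ?_, ?_⟩
    · have h1 : AnalyticAt ℂ (fun w => r' (lam * w)) z :=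
        AnalyticAt.fun_comp (f := fun t : ℂ => lam * t) hr' (hlin z)
      have h2 : AnalyticAt ℂ (fun w => P (w + om)) z :=
        AnalyticAt.fun_comp (f := fun t : ℂ => t + om) (P_an (add_om_not_mem hz)) (hlin2 z)
      exact h1.sub ((hr.add h2).div analyticAt_const (pow_ne_zero 2 lam_ne))
    · filter_upwards [self_mem_nhdsWithin] with w hw
      show P (lam * w) - (P w + P (w + om)) / lam ^ 2 = _
      have h2 : (w - z) ≠ 0 := (sub_ne_zero.2 hw)
      have h3 : lam * w ≠ lam * z := fun h => hw (mul_left_cancel₀ lam_ne h)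
      rw [hr2 w hw, hr2' _ h3, ← mul_sub, mul_pow]
      have h4 := lam_ne
      field_simp
      ring
  obtain ⟨c, hc⟩ := ell_const hm (fun z v hv => by
    show P (lam * (z + v)) - (P (z + v) + P (z + v + om)) / lam ^ 2 = _
    rw [P_add z hv, add_right_comm, P_add (z + om) hv, mul_add, P_add _ (lam_mul_mem hv)]) (by
    intro z
    by_cases hz : z ∈ Lat
    · exact hrem1 z hz
    · by_cases hz2 : z + om ∈ Lat
      · exact Rem.shift om hsh (hrem1 _ hz2)
      · apply Rem.of_an
        have hz3 : lam * z ∉ Lat := fun h => (lam_mul_mem_iff.1 h).elim hz hz2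
        exact (AnalyticAt.fun_comp (f := fun t : ℂ => lam * t) (P_an hz3) (hlin z)).sub
          (((P_an hz).add (AnalyticAt.fun_comp (f := fun t : ℂ => t + om) (P_an hz2) (hlin2 z))).div
          analyticAt_const (pow_ne_zero 2 lam_ne)))
  refine ⟨c, fun z hz hz2 => ?_⟩
  have hz3 : lam * z ∉ Lat := fun h => (lam_mul_mem_iff.1 h).elim hz hz2
  have hga : AnalyticAt ℂ g z :=
    (AnalyticAt.fun_comp (f := fun t : ℂ => lam * t) (P_an hz3) (hlin z)).sub
          (((P_an hz).add (AnalyticAt.fun_comp (f := fun t : ℂ => t + om) (P_an hz2) (hlin2 z))).div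
          analyticAt_const (pow_ne_zero 2 lam_ne))
  have h1 : g z = c := eq_of_codis (f := g) (g := fun _ => c) hc hga.continuousAt continuousAt_const
  have h2 : P (lam * z) - (P z + P (z + om)) / lam ^ 2 = c := h1
  linear_combination h2

/-- `1 / λ²` -/
def zz : ℂ := om ^ 2

theorem lam_zz : lam * zz = om := by
  unfold zz
  rw [pow_two, ← mul_assoc, lam_om, one_mul]

theorem zz_not_mem : zz ∉ Lat := fun h => om_not_mem (by rw [← lam_zz]; exact lam_mul_mem h)

theorem zz_add_om : zz + om = -zz - lam := by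
  have h1 : om = (1 - lam) / 2 := by
    have := two_om
    linear_combination this / 2
  unfold zz
  rw [h1]
  linear_combination (1 / 2) * lam_sq

theorem zz_add_om_not_mem : zz + om ∉ Lat := by
  intro h
  rw [zz_add_om] at h
  have h1 := Lat.neg_mem (Lat.add_mem h lam_mem)
  exact zz_not_mem (by simpa using h1)

theorem P_zz_add_om : P (zz + om) = P zz := by
  rw [zz_add_om, sub_eq_add_neg, P_add _ (Lat.neg_mem lam_mem), P_neg]

/-- the scaling factor -/
def sc : ℂ := P zz - ev

theorem prod_eq {z : ℂ} (hz : z ∉ Lat) (hz2 : z + om ∉ Lat) :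
    (P (z + om) - ev) * (P z - ev) = sc ^ 2 := by
  obtain ⟨c, hc0, hc⟩ := prod_const
  rw [hc z hz hz2, ← hc zz zz_not_mem zz_add_om_not_mem, P_zz_add_om]
  unfold sc
  ring

theorem sc_ne : sc ≠ 0 := by
  obtain ⟨c, hc0, hc⟩ := prod_const
  intro h
  apply hc0
  rw [← hc zz zz_not_mem zz_add_om_not_mem, P_zz_add_om]
  have h1 : P zz - ev = 0 := h
  rw [h1, mul_zero]

/-- the normalised Weierstrass function -/
def X (z : ℂ) : ℂ := (P z - ev) / sc

theorem X_add (z : ℂ) {v : ℂ} (hv : v ∈ Lat) : X (z + v) = X z := by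
  unfold X
  rw [P_add z hv]

theorem X_neg (z : ℂ) : X (-z) = X z := by
  unfold X
  rw [P_neg]

theorem X_om : X om = 0 := by
  unfold X
  show (P om - P om) / sc = 0
  rw [sub_self, zero_div]

theorem X_zz : X zz = 1 := div_self sc_ne

theorem X_mul_shift {z : ℂ} (hz : z ∉ Lat) (hz2 : z + om ∉ Lat) : X (z + om) * X z = 1 := by
  unfold X
  rw [div_mul_div_comm, prod_eq hz hz2, ← pow_two]
  exact div_self (pow_ne_zero 2 sc_ne)

theorem X_ne_zero {z : ℂ} (hz : z ∉ Lat) (hz2 : z + om ∉ Lat) : X z ≠ 0 :=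
  right_ne_zero_of_mul_eq_one (X_mul_shift hz hz2)

theorem X_shift {z : ℂ} (hz : z ∉ Lat) (hz2 : z + om ∉ Lat) : X (z + om) = (X z)⁻¹ :=
  eq_inv_of_mul_eq_one_left (X_mul_shift hz hz2)

theorem X_lam {z : ℂ} (hz : z ∉ Lat) (hz2 : z + om ∉ Lat) :
    X (lam * z) = (X z - 1) ^ 2 / (lam ^ 2 * X z) := by
  obtain ⟨c, hc⟩ := mul_const
  have key : ∀ z, z ∉ Lat → z + om ∉ Lat → X (lam * z) = (X z + (X z)⁻¹) / lam ^ 2 +
      (c - ev + 2 * ev / lam ^ 2) / sc := by
    intro z hz hz2
    rw [← X_shift hz hz2]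
    unfold X
    rw [hc z hz hz2]
    have h1 := lam_ne
    have h2 := sc_ne
    field_simp
    ring
  have h1 := key zz zz_not_mem zz_add_om_not_mem
  rw [lam_zz, X_om, X_zz, inv_one] at h1
  rw [key z hz hz2]
  have h2 := X_ne_zero hz hz2
  have h3 : (c - ev + 2 * ev / lam ^ 2) / sc = -2 / lam ^ 2 := by
    linear_combination -h1
  rw [h3]
  have h4 := lam_ne
  field_simp
  ring

end Pool.Agent.H208.CM
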