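import Pool.Agent.H208.CM.Mul
import Pool.Agent.H208.Thu.Charts

set_option autoImplicit false

/-!
# The projection of the plane onto the sphere
-/

noncomputable section

namespace Pool.Agent.H208.CM

open Filter Topology Set OnePoint Pool.Agent.H208.Thu

open Classical in
/-- the projection of the plane onto the sphere -/
def pr (z : ℂ) : Sph := if z ∈ Lat then ∞ else ((X z : ℂ) : Sph)

theorem pr_mem {z : ℂ} (h : z ∈ Lat) : pr z = ∞ := if_pos h
theorem pr_not {z : ℂ} (h : z ∉ Lat) : pr z = ((X z : ℂ) : Sph) := if_neg h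

theorem pr_eq_infty {z : ℂ} : pr z = ∞ ↔ z ∈ Lat := by
  constructor
  · intro h
    by_contra hz
    rw [pr_not hz] at h
    exact coe_ne_infty _ h
  · exact pr_mem

theorem pr_add (z : ℂ) {v : ℂ} (hv : v ∈ Lat) : pr (z + v) = pr z := by
  by_cases hz : z ∈ Lat
  · rw [pr_mem hz, pr_mem (Lat.add_mem hz hv)]
  · have h2 : z + v ∉ Lat := fun h => hz (by simpa using Lat.sub_mem h hv)
    rw [pr_not hz, pr_not h2, X_add z hv]

theorem pr_neg (z : ℂ) : pr (-z) = pr z := by
  by_cases hz : z ∈ Lat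
  · rw [pr_mem hz, pr_mem (Lat.neg_mem hz)]
  · have h2 : -z ∉ Lat := fun h => hz (by simpa using Lat.neg_mem h)
    rw [pr_not hz, pr_not h2, X_neg]

theorem pr_shift (z : ℂ) : pr (z + om) = Thu.inv (pr z) := by
  by_cases hz : z ∈ Lat
  · rw [pr_mem hz, pr_not (add_om_not_mem hz), add_comm, X_add om hz, X_om, inv_infty]
  · by_cases hz2 : z + om ∈ Lat
    · have h3 : X z = 0 := by
        have h4 : X (-om + (z + om)) = X (-om) := X_add _ hz2
        rw [X_neg, X_om] at h4
        rwa [neg_add_cancel_comm_assoc] at h4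
      rw [pr_mem hz2, pr_not hz, h3, inv_zero]
    · rw [pr_not hz, pr_not hz2, X_shift hz hz2, inv_coe_ne (X_ne_zero hz hz2)]

/-- the Lattès map `z ↦ (z - 1)² / (λ² z)` -/
def F (x : Sph) : Sph :=
  x.elim ∞ (fun z => if z = 0 then ∞ else (((z - 1) ^ 2 / (lam ^ 2 * z) : ℂ) : Sph))

theorem F_infty : F ∞ = ∞ := rfl
theorem F_zero : F ((0 : ℂ) : Sph) = ∞ := if_pos rfl
theorem F_coe {z : ℂ} (hz : z ≠ 0) : F (z : Sph) = (((z - 1) ^ 2 / (lam ^ 2 * z) : ℂ) : Sph) :=
  if_neg hz

theorem pr_lam (z : ℂ) : pr (lam * z) = F (pr z) := by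
  by_cases hz : z ∈ Lat
  · rw [pr_mem hz, pr_mem (lam_mul_mem hz), F_infty]
  · by_cases hz2 : z + om ∈ Lat
    · have h3 : pr z = ((0 : ℂ) : Sph) := by
        have h1 := pr_shift z
        rw [pr_mem hz2] at h1
        have h2 := congrArg Thu.inv h1
        rw [Thu.inv_inv, inv_infty] at h2
        exact h2.symm
      rw [pr_mem (lam_mul_mem_iff.2 (Or.inr hz2)), h3, F_zero]
    · have hz3 : lam * z ∉ Lat := fun h => (lam_mul_mem_iff.1 h).elim hz hz2
      rw [pr_not hz, pr_not hz3, F_coe (X_ne_zero hz hz2), X_lam hz hz2]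

theorem pr_lam_pow (n : ℕ) (z : ℂ) : pr (lam ^ n * z) = F^[n] (pr z) := by
  induction n with
  | zero => simp
  | succ n ih => rw [pow_succ', mul_assoc, pr_lam, ih, Function.iterate_succ_apply']

theorem pr_surj : Function.Surjective pr := by
  intro x
  induction x using OnePoint.rec with
  | infty => exact ⟨0, pr_mem Lat.zero_mem⟩
  | coe c =>
    obtain ⟨z, hz, h⟩ := P_surj (c * sc + ev)
    refine ⟨z, ?_⟩
    rw [pr_not hz]
    unfold X
    rw [h, add_sub_cancel_right, mul_div_cancel_right₀ _ sc_ne]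

theorem pr_eq_iff {z w : ℂ} : pr z = pr w ↔ z - w ∈ Lat ∨ z + w ∈ Lat := by
  constructor
  · intro h
    by_cases hz : z ∈ Lat
    · have hw : w ∈ Lat := pr_eq_infty.1 (by rw [← h, pr_mem hz])
      exact Or.inl (Lat.sub_mem hz hw)
    · have hw : w ∉ Lat := fun hw => hz (pr_eq_infty.1 (by rw [h, pr_mem hw]))
      rw [pr_not hz, pr_not hw, OnePoint.coe_eq_coe] at h
      unfold X at h
      apply P_inj hz hw
      have h2 := sc_ne
      field_simp at h
      exact sub_left_injective h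
  · rintro (h | h)
    · have h1 := pr_add w h
      rw [add_sub_cancel] at h1
      exact h1
    · have h1 := pr_add (-w) h
      rw [neg_add_cancel_comm_assoc, pr_neg] at h1
      exact h1

theorem X_an {z : ℂ} (hz : z ∉ Lat) : AnalyticAt ℂ X z :=
  ((P_an hz).sub analyticAt_const).div analyticAt_const sc_ne

theorem X_cobdd {l : ℂ} (hl : l ∈ Lat) : Tendsto X (𝓝[≠] l) (Bornology.cobounded ℂ) := by
  have h1 := P_cobdd hl
  have h2 : Tendsto (fun z => P z - ev) (𝓝[≠] l) (Bornology.cobounded ℂ) :=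
    (tendsto_sub_const_cobounded ev).comp h1
  have h3 : Tendsto (fun z : ℂ => z / sc) (Bornology.cobounded ℂ) (Bornology.cobounded ℂ) := by
    have := tendsto_mul_right_cobounded (inv_ne_zero sc_ne)
    simpa [div_eq_mul_inv] using this
  exact h3.comp h2

theorem pr_continuous : Continuous pr := by
  rw [continuous_iff_continuousAt]
  intro z
  by_cases hz : z ∈ Lat
  · rw [ContinuousAt, pr_mem hz, ← nhdsNE_sup_pure]
    refine Tendsto.sup ?_ (by
      rw [tendsto_pure_left]
      intro s hs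
      rw [pr_mem hz]
      exact mem_of_mem_nhds hs)
    have h1 : Tendsto (fun w => ((X w : ℂ) : Sph)) (𝓝[≠] z) (𝓝 ∞) := by
      have h3 : Tendsto ((↑) : ℂ → Sph) (Bornology.cobounded ℂ) (𝓝 ∞) := by
        rw [Metric.cobounded_eq_cocompact, ← coclosedCompact_eq_cocompact]
        exact OnePoint.tendsto_coe_infty
      exact h3.comp (X_cobdd hz)
    refine h1.congr' ?_
    have h4 := codis_ev codis_not_mem z
    filter_upwards [h4] with w hw
    rw [pr_not hw]
  · have h1 : ContinuousAt (fun w => ((X w : ℂ) : Sph)) z :=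
      OnePoint.continuous_coe.continuousAt.comp (X_an hz).continuousAt
    refine h1.congr ?_
    filter_upwards [ev_not_mem hz] with w hw
    rw [pr_not hw]

/-! Real coordinates with respect to the basis `1, λ`. -/

/-- the first coordinate -/
def cs (z : ℂ) : ℝ := z.re - z.im / Real.sqrt 7
/-- the second coordinate -/
def ct (z : ℂ) : ℝ := 2 * z.im / Real.sqrt 7

theorem cs_cont : Continuous cs := by unfold cs; fun_prop
theorem ct_cont : Continuous ct := by unfold ct; fun_prop

theorem sqrt7_ne : Real.sqrt 7 ≠ 0 := (Real.sqrt_pos.2 (by norm_num)).ne'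

theorem coord (z : ℂ) : (cs z : ℂ) + ct z * lam = z := by
  have h := sqrt7_ne
  apply Complex.ext
  · simp only [Complex.add_re, Complex.ofReal_re, Complex.mul_re, Complex.ofReal_im, lam_re,
      lam_im, cs, ct]
    field_simp
    ring
  · simp only [Complex.add_im, Complex.ofReal_re, Complex.mul_im, Complex.ofReal_im, lam_re,
      lam_im, cs, ct]
    field_simp
    ring

theorem cs_mk (s t : ℝ) : cs ((s : ℂ) + t * lam) = s := by
  have h := sqrt7_ne
  simp only [cs, Complex.add_re, Complex.ofReal_re, Complex.mul_re, Complex.ofReal_im, lam_re,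
      lam_im, Complex.add_im, Complex.mul_im]
  field_simp
  ring

theorem ct_mk (s t : ℝ) : ct ((s : ℂ) + t * lam) = t := by
  have h := sqrt7_ne
  simp only [ct, Complex.add_re, Complex.ofReal_re, Complex.mul_re, Complex.ofReal_im, lam_re,
      lam_im, Complex.add_im, Complex.mul_im]
  field_simp
  ring

theorem cs_add (z w : ℂ) : cs (z + w) = cs z + cs w := by
  simp only [cs, Complex.add_re, Complex.add_im]; ring
theorem ct_add (z w : ℂ) : ct (z + w) = ct z + ct w := by
  simp only [ct, Complex.add_im]; ring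
theorem cs_sub (z w : ℂ) : cs (z - w) = cs z - cs w := by
  simp only [cs, Complex.sub_re, Complex.sub_im]; ring
theorem ct_sub (z w : ℂ) : ct (z - w) = ct z - ct w := by
  simp only [ct, Complex.sub_im]; ring
theorem cs_neg (z : ℂ) : cs (-z) = -cs z := by
  simp only [cs, Complex.neg_re, Complex.neg_im]; ring
theorem ct_neg (z : ℂ) : ct (-z) = -ct z := by
  simp only [ct, Complex.neg_im]; ring

theorem mem_Lat_iff {z : ℂ} : z ∈ Lat ↔ ∃ m n : ℤ, cs z = m ∧ ct z = n := by
  rw [mem_Lat]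
  constructor
  · rintro ⟨m, n, rfl⟩
    exact ⟨m, n, by simpa using cs_mk m n, by simpa using ct_mk m n⟩
  · rintro ⟨m, n, h1, h2⟩
    refine ⟨m, n, ?_⟩
    rw [← coord z, h1, h2]
    push_cast
    rfl

/-- the closed fundamental parallelogram -/
def KK : Set ℂ := (fun p : ℝ × ℝ => (p.1 : ℂ) + p.2 * lam) '' (Icc 0 1 ×ˢ Icc 0 1)

theorem KK_compact : IsCompact KK :=
  (isCompact_Icc.prod isCompact_Icc).image (by fun_prop)

theorem exists_KK (z : ℂ) : ∃ v ∈ Lat, z + v ∈ KK := by
  refine ⟨-((⌊cs z⌋ : ℂ) + ⌊ct z⌋ * lam), Lat.neg_mem (mem_Lat.2 ⟨_, _, rfl⟩), ?_⟩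
  refine ⟨(Int.fract (cs z), Int.fract (ct z)), ⟨⟨Int.fract_nonneg _, (Int.fract_lt_one _).le⟩,
    ⟨Int.fract_nonneg _, (Int.fract_lt_one _).le⟩⟩, ?_⟩
  show ((Int.fract (cs z) : ℝ) : ℂ) + (Int.fract (ct z) : ℝ) * lam = _
  nth_rewrite 3 [← coord z]
  simp only [Int.fract, Complex.ofReal_sub, Complex.ofReal_intCast]
  ring

theorem pr_closed_of {s : Set Sph} (h : IsClosed (pr ⁻¹' s)) : IsClosed s := by
  have h1 : s = pr '' (pr ⁻¹' s ∩ KK) := by
    ext x
    constructor
    · intro hx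
      obtain ⟨z, rfl⟩ := pr_surj x
      obtain ⟨v, hv, hz⟩ := exists_KK z
      refine ⟨z + v, ⟨?_, hz⟩, pr_add z hv⟩
      show pr (z + v) ∈ s
      rwa [pr_add z hv]
    · rintro ⟨z, ⟨hz, _⟩, rfl⟩
      exact hz
  rw [h1]
  exact ((KK_compact.inter_left h).image pr_continuous).isClosed

theorem pr_open_of {s : Set Sph} (h : IsOpen (pr ⁻¹' s)) : IsOpen s := by
  rw [← isClosed_compl_iff]
  apply pr_closed_of
  rw [preimage_compl]
  exact h.isClosed_compl

theorem pr_isOpenMap : IsOpenMap pr := by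
  intro U hU
  apply pr_open_of
  have h1 : pr ⁻¹' (pr '' U) = (⋃ v ∈ (Lat : Set ℂ), (fun w => w + v) ⁻¹' U) ∪
      ⋃ v ∈ (Lat : Set ℂ), (fun w => v - w) ⁻¹' U := by
    ext w
    simp only [mem_preimage, mem_image, mem_union, mem_iUnion, SetLike.mem_coe, exists_prop]
    constructor
    · rintro ⟨u, hu, h⟩
      rcases pr_eq_iff.1 h with h | h
      · left
        exact ⟨u - w, h, by rwa [add_sub_cancel]⟩
      · right
        exact ⟨u + w, h, by rwa [add_sub_cancel_right]⟩
    · rintro (⟨v, hv, h⟩ | ⟨v, hv, h⟩)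
      · exact ⟨_, h, pr_add w hv⟩
      · refine ⟨_, h, ?_⟩
        rw [sub_eq_neg_add, pr_add _ hv, pr_neg]
  rw [h1]
  refine IsOpen.union ?_ ?_
  · exact isOpen_biUnion fun v _ => hU.preimage (continuous_id.add continuous_const)
  · exact isOpen_biUnion fun v _ => hU.preimage (continuous_const.sub continuous_id)

end Pool.Agent.H208.CM
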