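import Pool.Agent.H208.CM.Exp

set_option autoImplicit false

/-!
# Square roots along loops in the complement of a continuum
-/

noncomputable section

namespace Pool.Agent.H208.CM

open Filter Topology Set OnePoint Pool.Agent.H208.Thu

/-- the function `δ - e` has a square root along the loop `δ` -/
def Qs (δ : unitInterval → ℂ) (e : ℂ) : Prop :=
  ∃ q : unitInterval → ℂ, Continuous q ∧ (∀ t, q t ^ 2 = δ t - e) ∧ q 0 = q 1

theorem sq_one_sub {w : ℂ} (hw : ‖w‖ < 1) : sq (1 - w) ^ 2 = 1 - w := by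
  apply sq_sq
  intro h
  have h1 : w = 1 := by linear_combination -h
  rw [h1, norm_one] at hw
  exact lt_irrefl _ hw

theorem sq_cont {α : Type*} [TopologicalSpace α] {f : α → ℂ} (hf : Continuous f)
    (h1 : ∀ t, ‖f t‖ < 1) : Continuous fun t => sq (1 - f t) := by
  unfold sq
  apply Complex.continuous_exp.comp
  apply Continuous.div_const
  apply Continuous.clog (continuous_const.sub hf)
  intro t
  rw [Complex.mem_slitPlane_iff]
  left
  have h2 := (Complex.abs_re_le_norm (f t)).trans_lt (h1 t)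
  rw [abs_lt] at h2
  show 0 < (1 - f t).re
  rw [Complex.sub_re, Complex.one_re]
  linarith

theorem Qs_move {δ : unitInterval → ℂ} (hδ : Continuous δ) (h01 : δ 0 = δ 1) {e e' : ℂ}
    (h : ∀ t, ‖e' - e‖ < ‖δ t - e‖) (hQ : Qs δ e) : Qs δ e' := by
  obtain ⟨q, hq1, hq2, hq3⟩ := hQ
  have hne : ∀ t, δ t - e ≠ 0 := by
    intro t h0
    have := h t
    rw [h0, norm_zero] at this
    exact absurd this (not_lt.2 (norm_nonneg _))
  have hc : Continuous fun t => (e' - e) / (δ t - e) :=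
    continuous_const.div (hδ.sub continuous_const) hne
  have hn : ∀ t, ‖(e' - e) / (δ t - e)‖ < 1 := by
    intro t
    rw [norm_div, div_lt_one (norm_pos_iff.2 (hne t))]
    exact h t
  refine ⟨fun t => q t * sq (1 - (e' - e) / (δ t - e)), hq1.mul (sq_cont hc hn), fun t => ?_, ?_⟩
  · rw [mul_pow, hq2, sq_one_sub (hn t), mul_sub, mul_one, mul_div_cancel₀ _ (hne t)]
    ring
  · show q 0 * _ = q 1 * _
    rw [hq3, h01]

theorem Qs_far {δ : unitInterval → ℂ} (hδ : Continuous δ) (h01 : δ 0 = δ 1) {e : ℂ}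
    (h : ∀ t, ‖δ t‖ < ‖e‖) : Qs δ e := by
  have he : e ≠ 0 := by
    rintro rfl
    have := h 0
    rw [norm_zero] at this
    exact absurd this (not_lt.2 (norm_nonneg _))
  have hc : Continuous fun t => δ t / e := hδ.div_const e
  have hn : ∀ t, ‖δ t / e‖ < 1 := by
    intro t
    rw [norm_div, div_lt_one (norm_pos_iff.2 he)]
    exact h t
  refine ⟨fun t => sq (-e) * sq (1 - δ t / e), continuous_const.mul (sq_cont hc hn), fun t => ?_, ?_⟩
  · rw [mul_pow, sq_one_sub (hn t), sq_sq (neg_ne_zero.2 he), mul_sub, mul_one, neg_mul,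
      mul_div_cancel₀ _ he]
    ring
  · show sq (-e) * _ = sq (-e) * _
    rw [h01]

/-- loops in the complement of a continuum containing infinity -/
theorem Qs_all {T : Set Sph} (hT : IsPreconnected T) (hinf : (∞ : Sph) ∈ T)
    {δ : unitInterval → ℂ} (hδ : Continuous δ) (h01 : δ 0 = δ 1) (hδT : ∀ t, (δ t : Sph) ∉ T)
    {e : ℂ} (he : (e : Sph) ∈ T) : Qs δ e := by
  obtain ⟨R, hR⟩ : ∃ R : ℝ, ∀ t, ‖δ t‖ < R := by
    obtain ⟨R, hR⟩ := (isCompact_range hδ).isBounded.exists_norm_le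
    exact ⟨R + 1, fun t => (hR _ ⟨t, rfl⟩).trans_lt (lt_add_one R)⟩
  have key := hT.induction₂ (fun x y : Sph => ((x = ∞ ∨ Qs δ (toC x)) ↔ (y = ∞ ∨ Qs δ (toC y)))) ?_
    (fun x y z _ _ _ h h' => h.trans h') (fun x y _ _ h => h.symm) hinf he
  · have h1 := key.1 (Or.inl rfl)
    rcases h1 with h1 | h1
    · exact absurd h1 (coe_ne_infty e)
    · exact h1
  · intro x hx
    induction x using OnePoint.rec with
    | infty =>
      have h1 : ∀ᶠ y in 𝓝 (∞ : Sph), y = ∞ ∨ R < ‖toC y‖ := by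
        have h2 : IsOpen {y : Sph | y = ∞ ∨ R < ‖toC y‖} := by
          rw [OnePoint.isOpen_def]
          constructor
          · intro _
            have h3 : ((↑) ⁻¹' {y : Sph | y = ∞ ∨ R < ‖toC y‖} : Set ℂ)ᶜ = Metric.closedBall 0 R := by
              ext z
              simp
            rw [h3]
            exact isCompact_closedBall 0 R
          · have h3 : ((↑) ⁻¹' {y : Sph | y = ∞ ∨ R < ‖toC y‖} : Set ℂ) = {z | R < ‖z‖} := by
              ext z
              simp
            rw [h3]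
            exact isOpen_lt continuous_const continuous_norm
        exact h2.mem_nhds (Or.inl rfl)
      refine eventually_nhdsWithin_of_eventually_nhds ?_
      filter_upwards [h1] with y hy
      refine ⟨fun _ => ?_, fun _ => Or.inl rfl⟩
      rcases hy with hy | hy
      · exact Or.inl hy
      · exact Or.inr (Qs_far hδ h01 fun t => (hR t).trans hy)
    | coe e =>
      have hne : ∀ t, δ t ≠ e := fun t h => hδT t (by rw [h]; exact hx)
      obtain ⟨t0, -, ht0⟩ := isCompact_univ.exists_isMinOn (univ_nonempty)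
        (((hδ.sub continuous_const).norm).continuousOn (s := univ) : ContinuousOn
          (fun t => ‖δ t - e‖) univ)
      set m := ‖δ t0 - e‖ with hm
      have hm0 : 0 < m := norm_pos_iff.2 (sub_ne_zero.2 (hne t0))
      have hmle : ∀ t, m ≤ ‖δ t - e‖ := fun t => ht0 (mem_univ t)
      have h1 : ∀ᶠ y in 𝓝 (e : Sph), y ≠ ∞ := ev_ne (coe_ne_infty e)
      have h2 : ∀ᶠ y in 𝓝 (e : Sph), ‖toC y - e‖ < m / 2 := by
        have h3 : ContinuousAt (fun y : Sph => ‖toC y - e‖) (e : Sph) :=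
          ((continuousAt_toC (coe_ne_infty e)).sub continuousAt_const).norm
        have h4 : ‖toC (e : Sph) - e‖ < m / 2 := by
          rw [toC_coe, sub_self, norm_zero]; positivity
        exact h3.eventually (gt_mem_nhds h4)
      refine eventually_nhdsWithin_of_eventually_nhds ?_
      filter_upwards [h1, h2] with y hy1 hy2
      have hx0 : ((e : Sph) = ∞) ↔ False := ⟨fun h => coe_ne_infty e h, False.elim⟩
      have hy0 : (y = ∞) ↔ False := ⟨fun h => hy1 h, False.elim⟩
      rw [hx0, hy0, false_or, false_or, toC_coe]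
      constructor
      · exact Qs_move hδ h01 fun t => by
          have := hmle t
          linarith
      · refine Qs_move hδ h01 fun t => ?_
        have h5 := hmle t
        have h6 : ‖δ t - e‖ ≤ ‖δ t - toC y‖ + ‖toC y - e‖ := by
          have : δ t - e = (δ t - toC y) + (toC y - e) := by ring
          rw [this]
          exact norm_add_le _ _
        rw [norm_sub_rev]
        linarith

/-- the square root of `X / (X - u)` -/
def SS (z : ℂ) : ℂ := (X (lam⁻¹ * z) - 1) / (X (lam⁻¹ * z) + 1)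

theorem alg1 {x : ℂ} (hx : x ≠ 0) :
    (x - 1) ^ 2 / (lam ^ 2 * x) - uu = (x + 1) ^ 2 / (lam ^ 2 * x) := by
  have e4 := lam_ne
  have e5 := lam_sq_uu
  rw [div_sub' (mul_ne_zero (pow_ne_zero 2 e4) hx)]
  congr 1
  linear_combination (-x) * e5

theorem alg2 {x : ℂ} (hx : x ≠ 0) (hx1 : x + 1 ≠ 0) :
    ((x - 1) / (x + 1)) ^ 2 * ((x + 1) ^ 2 / (lam ^ 2 * x)) = (x - 1) ^ 2 / (lam ^ 2 * x) := by
  have e4 := lam_ne
  field_simp

theorem F_one_uu : F ((-1 : ℂ) : Sph) = (uu : Sph) := F_neg_one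

/-- the lifted statement -/
theorem wind_step {T : Set Sph} (hT : IsPreconnected T) (hinf : (∞ : Sph) ∈ T)
    (h0 : ((0 : ℂ) : Sph) ∈ T) (hu : (uu : Sph) ∈ T) {x y v : ℂ}
    (hJ : JoinedIn (pr ⁻¹' Tᶜ) x y) (hv : v ∈ Lat) (hxy : y = x + v ∨ y = -x + v) :
    lam⁻¹ * v ∈ Lat := by
  have hW : ∀ z, pr z ∉ T → z ∉ Lat := fun z hz h => hz (by rw [pr_mem h]; exact hinf)
  obtain ⟨γ, hγ⟩ := hJ
  have hγ' : ∀ t, pr (γ t) ∉ T := hγ
  have hlamz : ∀ z, lam * (lam⁻¹ * z) = z := fun z => mul_inv_cancel_left₀ lam_ne z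
  have hdiv : ∀ z, pr z ∉ T → lam⁻¹ * z ∉ Lat := fun z hz h =>
    hW z hz (by rw [← hlamz z]; exact lam_mul_mem h)
  set δ : unitInterval → ℂ := fun t => X (γ t) with hδ
  have hδpr : ∀ t, (δ t : Sph) = pr (γ t) := fun t => (pr_not (hW _ (hγ' t))).symm
  have hprxy : pr y = pr x := by
    rcases hxy with rfl | rfl
    · exact pr_add x hv
    · rw [pr_add _ hv, pr_neg]
  have hδc : Continuous δ := by
    rw [continuous_iff_continuousAt]
    intro t
    exact ContinuousAt.comp (f := fun t => γ t) (X_an (hW _ (hγ' t))).continuousAt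
      γ.continuous.continuousAt
  have h01 : δ 0 = δ 1 := by
    rw [← OnePoint.coe_eq_coe, hδpr, hδpr, γ.source, γ.target, hprxy]
  have hδT : ∀ t, (δ t : Sph) ∉ T := fun t => by rw [hδpr]; exact hγ' t
  obtain ⟨q0, hq01, hq02, hq03⟩ := Qs_all hT hinf hδc h01 hδT h0
  obtain ⟨qu, hqu1, hqu2, hqu3⟩ := Qs_all hT hinf hδc h01 hδT hu
  have hδ0 : ∀ t, δ t ≠ 0 := fun t h => hδT t (by rw [h]; exact h0)
  have hδu : ∀ t, δ t - uu ≠ 0 := fun t h => hδT t (by rw [sub_eq_zero.1 h]; exact hu)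
  have hq0 : ∀ t, q0 t ≠ 0 := fun t h => hδ0 t (by
    have := hq02 t
    rw [h, sub_zero] at this
    rw [← this]; ring)
  have hqu : ∀ t, qu t ≠ 0 := fun t h => hδu t (by
    rw [← hqu2 t, h]; ring)
  -- the function `X (z / λ)`
  have hXl : ∀ z, pr z ∉ T → ((X (lam⁻¹ * z) : ℂ) : Sph) = pr (lam⁻¹ * z) := fun z hz =>
    (pr_not (hdiv z hz)).symm
  have hFX : ∀ z, pr z ∉ T → F ((X (lam⁻¹ * z) : ℂ) : Sph) = pr z := fun z hz => by
    rw [hXl z hz, ← pr_lam, hlamz]
  have hX0 : ∀ z, pr z ∉ T → X (lam⁻¹ * z) ≠ 0 := by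
    intro z hz h
    have h1 := hFX z hz
    rw [h, F_zero] at h1
    exact hz (by rw [← h1]; exact hinf)
  have hX1 : ∀ z, pr z ∉ T → X (lam⁻¹ * z) + 1 ≠ 0 := by
    intro z hz h
    have h1 := hFX z hz
    have h2 : X (lam⁻¹ * z) = -1 := by linear_combination h
    rw [h2, F_one_uu] at h1
    exact hz (by rw [← h1]; exact hu)
  have hXX : ∀ z, pr z ∉ T → X z = (X (lam⁻¹ * z) - 1) ^ 2 / (lam ^ 2 * X (lam⁻¹ * z)) := by
    intro z hz
    have h1 := hFX z hz
    rw [F_coe (hX0 z hz), pr_not (hW z hz), OnePoint.coe_eq_coe] at h1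
    exact h1.symm
  have hSS : ∀ z, pr z ∉ T → SS z ^ 2 * (X z - uu) = X z := by
    intro z hz
    have e1 := hX0 z hz
    have e2 := hX1 z hz
    have e3 := hXX z hz
    rw [e3, alg1 e1]
    exact alg2 e1 e2
  have hSSc : Continuous fun t => SS (γ t) := by
    rw [continuous_iff_continuousAt]
    intro t
    have hc : ContinuousAt (fun t => X (lam⁻¹ * γ t)) t := by
      have h1 : ContinuousAt X (lam⁻¹ * γ t) := (X_an (hdiv _ (hγ' t))).continuousAt
      exact ContinuousAt.comp (f := fun t => lam⁻¹ * γ t) h1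
        (continuous_const.mul γ.continuous).continuousAt
    exact (hc.sub continuousAt_const).div (hc.add continuousAt_const) (hX1 _ (hγ' t))
  have hsq : EqOn ((fun t => SS (γ t) * qu t) ^ 2) (q0 ^ 2) univ := by
    intro t _
    show (SS (γ t) * qu t) ^ 2 = q0 t ^ 2
    rw [mul_pow, hqu2, hq02, sub_zero]
    exact hSS _ (hγ' t)
  have hend : SS (γ 0) = SS (γ 1) := by
    rcases isPreconnected_univ.eq_or_eq_neg_of_sq_eq (hSSc.mul hqu1).continuousOn
      hq01.continuousOn hsq (fun {t} _ => hq0 t) with h | h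
    · have e0 : SS (γ 0) * qu 0 = q0 0 := h (mem_univ 0)
      have e1 : SS (γ 1) * qu 1 = q0 1 := h (mem_univ 1)
      apply mul_right_cancel₀ (hqu 0)
      rw [e0, hq03, ← e1, hqu3]
    · have e0 : SS (γ 0) * qu 0 = -q0 0 := h (mem_univ 0)
      have e1 : SS (γ 1) * qu 1 = -q0 1 := h (mem_univ 1)
      apply mul_right_cancel₀ (hqu 0)
      rw [e0, hq03, ← e1, hqu3]
  rw [γ.source, γ.target] at hend
  by_contra hcon
  have hxT : pr x ∉ T := by have := hγ' 0; rwa [γ.source] at this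
  have hyT : pr y ∉ T := by rw [hprxy]; exact hxT
  have hv2 : lam⁻¹ * v - om ∈ Lat := by
    rcases mem_or_of_lam_mul (z := lam⁻¹ * v) (by rw [hlamz]; exact hv) with h | h
    · exact absurd h hcon
    · exact h
  have hXinv : pr (lam⁻¹ * y) = Thu.inv (pr (lam⁻¹ * x)) := by
    rcases hxy with rfl | rfl
    · have e1 : lam⁻¹ * (x + v) = (lam⁻¹ * x + om) + (lam⁻¹ * v - om) := by ring
      rw [e1, pr_add _ hv2, pr_shift]
    · have e1 : lam⁻¹ * (-x + v) = (-(lam⁻¹ * x) + om) + (lam⁻¹ * v - om) := by ring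
      rw [e1, pr_add _ hv2, pr_shift, pr_neg]
  rw [← hXl y hyT, ← hXl x hxT, inv_coe_ne (hX0 x hxT), OnePoint.coe_eq_coe] at hXinv
  unfold SS at hend
  have e1 := hX0 x hxT
  have e2 := hX1 x hxT
  have e3 := hX1 y hyT
  rw [hXinv] at hend e3
  have e4 : X (lam⁻¹ * x) - 1 = 0 := by
    generalize X (lam⁻¹ * x) = a at *
    have e5 : a⁻¹ + 1 = (a + 1) / a := by
      rw [eq_div_iff e1, add_mul, inv_mul_cancel₀ e1]; ring
    have e6 : a⁻¹ - 1 = (1 - a) / a := by
      rw [eq_div_iff e1, sub_mul, inv_mul_cancel₀ e1]; ring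
    rw [e5, e6, div_div_div_cancel_right₀ e1, div_eq_div_iff e2 e2] at hend
    have e7 := mul_right_cancel₀ e2 hend
    linear_combination e7 / 2
  have e5 := hXX x hxT
  rw [e4] at e5
  have e6 : X x = 0 := by rw [e5]; simp
  apply hδ0 0
  show X (γ 0) = 0
  rw [γ.source]
  exact e6

end Pool.Agent.H208.CM
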